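import Pool.Agent.H71.Lan.Basic

/-!
# Landau's theorem for Beurling systems : the pole at `1`
-/

set_option autoImplicit false

open Complex MeasureTheory Set Filter Topology

namespace Pool.Agent.H71.Lan

variable {Z : ℂ → ℂ} {u : ℕ → ℝ} {κ : ℝ}

/-- `(s - 1) Z s`, extended to `1` -/
noncomputable def gg (Z : ℂ → ℂ) (κ : ℝ) : ℂ → ℂ := Function.update (fun s => (s - 1) * Z s) 1 (κ : ℂ)

lemma isOpen_half : IsOpen {s : ℂ | 1 / 2 < s.re} := isOpen_lt continuous_const Complex.continuous_re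

lemma gg_of_ne {s : ℂ} (hs : s ≠ 1) : gg Z κ s = (s - 1) * Z s := by
  unfold gg
  rw [Function.update_of_ne hs]

lemma gg_diff (h : BZ Z u κ) : DifferentiableOn ℂ (gg Z κ) {s : ℂ | 1 / 2 < s.re} := by
  have hn : {s : ℂ | 1 / 2 < s.re} ∈ 𝓝 (1 : ℂ) := isOpen_half.mem_nhds (by simp; norm_num)
  rw [← Complex.differentiableOn_compl_singleton_and_continuousAt_iff hn]
  constructor
  · intro s hs
    have h1 : s ≠ 1 := hs.2
    have h2 : DifferentiableAt ℂ (fun s => (s - 1) * Z s) s :=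
      ((differentiableAt_id).sub_const 1).mul (diffAt h hs.1 h1)
    have h3 : gg Z κ =ᶠ[𝓝 s] fun s => (s - 1) * Z s := by
      filter_upwards [isOpen_ne.mem_nhds h1] with z hz
      exact gg_of_ne hz
    exact (h2.congr_of_eventuallyEq h3).differentiableWithinAt
  · unfold gg
    rw [continuousAt_update_same]
    exact h.res

lemma gg_ne (h : BZ Z u κ) {σ : ℝ} (hσ : 1 ≤ σ) : gg Z κ (σ : ℂ) ≠ 0 := by
  rcases hσ.eq_or_lt with h1 | h1
  · rw [← h1]
    unfold gg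
    simpa using h.kne
  · have h2 : (σ : ℂ) ≠ 1 := by
      intro h3
      have : σ = 1 := by exact_mod_cast h3
      linarith
    rw [gg_of_ne h2]
    exact mul_ne_zero (sub_ne_zero.2 h2) (ne_zero h (by simpa using h1))

/-- the size of `Z` and of its logarithmic derivative on `(1, 2]` -/
theorem pole (h : BZ Z u κ) : ∃ C : ℝ, 3 ≤ C ∧ ∀ δ : ℝ, 0 < δ → δ ≤ 1 →
    ‖Z ((1 + δ : ℝ) : ℂ)‖ ≤ C / δ ∧
    -(deriv Z ((1 + δ : ℝ) : ℂ) / Z ((1 + δ : ℝ) : ℂ)).re ≤ 1 / δ + C := by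
  have hd := gg_diff h
  have hmap : MapsTo (fun σ : ℝ => (σ : ℂ)) (Icc 1 2) {s : ℂ | 1 / 2 < s.re} := by
    intro σ hσ
    have := hσ.1
    simp only [mem_ofPred_eq, Complex.ofReal_re]
    linarith
  have c1 : ContinuousOn (fun σ : ℝ => gg Z κ (σ : ℂ)) (Icc 1 2) :=
    hd.continuousOn.comp Complex.continuous_ofReal.continuousOn hmap
  have hdd : DifferentiableOn ℂ (deriv (gg Z κ)) {s : ℂ | 1 / 2 < s.re} := hd.deriv isOpen_half
  have c2 : ContinuousOn (fun σ : ℝ => deriv (gg Z κ) (σ : ℂ) / gg Z κ (σ : ℂ)) (Icc 1 2) :=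
    (hdd.continuousOn.comp Complex.continuous_ofReal.continuousOn hmap).div c1 fun σ hσ => gg_ne h hσ.1
  obtain ⟨C1, hC1⟩ := isCompact_Icc.exists_bound_of_continuousOn c1
  obtain ⟨C2, hC2⟩ := isCompact_Icc.exists_bound_of_continuousOn c2
  refine ⟨max 3 (max C1 C2), le_max_left _ _, fun δ h0 h1 => ?_⟩
  have hmem : (1 + δ) ∈ Icc (1 : ℝ) 2 := ⟨by linarith, by linarith⟩
  have hs1 : (((1 + δ : ℝ)) : ℂ) ≠ 1 := by
    intro h3
    have : (1 + δ : ℝ) = 1 := by exact_mod_cast h3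
    linarith
  have e0 : (((1 + δ : ℝ)) : ℂ) - 1 = ((δ : ℝ) : ℂ) := by push_cast; ring
  have hδ : ((δ : ℝ) : ℂ) ≠ 0 := by exact_mod_cast h0.ne'
  have hZ : Z ((1 + δ : ℝ) : ℂ) ≠ 0 := ne_zero h (by simpa using h0)
  have b1 := hC1 (1 + δ) hmem
  have b2 := hC2 (1 + δ) hmem

  rw [gg_of_ne hs1, e0, norm_mul, Complex.norm_real, Real.norm_eq_abs, abs_of_pos h0] at b1
  have hCa : C1 ≤ max 3 (max C1 C2) := (le_max_left _ _).trans (le_max_right _ _)
  have hCb : C2 ≤ max 3 (max C1 C2) := (le_max_right _ _).trans (le_max_right _ _)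
  constructor
  · rw [le_div_iff₀ h0]
    nlinarith
  · have ev : gg Z κ =ᶠ[𝓝 (((1 + δ : ℝ)) : ℂ)] fun s => (s - 1) * Z s := by
      filter_upwards [isOpen_ne.mem_nhds hs1] with z hz
      exact gg_of_ne hz
    have hZd : DifferentiableAt ℂ Z (((1 + δ : ℝ)) : ℂ) := by
      refine diffAt h ?_ hs1
      simp only [Complex.ofReal_re]
      linarith
    have e1 : deriv (gg Z κ) (((1 + δ : ℝ)) : ℂ) =
        Z ((1 + δ : ℝ) : ℂ) + ((δ : ℝ) : ℂ) * deriv Z ((1 + δ : ℝ) : ℂ) := by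
      rw [ev.deriv_eq]
      have := (((hasDerivAt_id (((1 + δ : ℝ)) : ℂ)).sub_const 1).mul hZd.hasDerivAt).deriv
      simp only [id_eq, one_mul, e0] at this
      exact this
    have e2 : deriv Z ((1 + δ : ℝ) : ℂ) / Z ((1 + δ : ℝ) : ℂ) =
        deriv (gg Z κ) (((1 + δ : ℝ)) : ℂ) / gg Z κ (((1 + δ : ℝ)) : ℂ) - ((1 / δ : ℝ) : ℂ) := by
      have e3 : ((1 / δ : ℝ) : ℂ) = 1 / ((δ : ℝ) : ℂ) := by push_cast; ring
      rw [e1, gg_of_ne hs1, e0, e3]
      generalize (((1 + δ : ℝ)) : ℂ) = w at hZ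
      field_simp
      ring
    rw [e2, Complex.sub_re, Complex.ofReal_re]
    have b3 := (Complex.abs_re_le_norm _).trans b2
    have b4 := (abs_le.1 b3).1
    linarith

end Pool.Agent.H71.Lan
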