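import Pool.Agent.H71.Lan.AbsA

/-!
# Landau's theorem for Beurling systems : the Vinogradov-Korobov-Richert scale, with an absolute constant

`landau_richert_abs` : if `‖Z (σ + i t)‖ ≤ A |t| ^ (B (1 - σ)^(3/2)) (log |t|)^(2/3)` for `θ ≤ σ ≤ 1` (and the same with
`1 - σ` replaced by `0` for `1 ≤ σ ≤ 2`), then all zeros `β + i γ` of large ordinate have
`1 - β ≥ B^(-2/3) / (100 (log |γ|)^(2/3) (log log |γ|)^(1/3))`.
-/

set_option autoImplicit false

open Complex MeasureTheory Set Filter Topology Metric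

namespace Pool.Agent.H71.Lan

variable {Z : ℂ → ℂ} {u : ℕ → ℝ} {κ : ℝ}

lemma cube_rpow {x : ℝ} (hx : 0 ≤ x) : (x ^ (1 / 3 : ℝ)) ^ 3 = x := by
  rw [← Real.rpow_natCast, ← Real.rpow_mul hx]
  norm_num

lemma sq_rpow {x : ℝ} (hx : 0 ≤ x) : (x ^ (1 / 3 : ℝ)) ^ 2 = x ^ (2 / 3 : ℝ) := by
  rw [← Real.rpow_natCast, ← Real.rpow_mul hx]
  norm_num

theorem landau_richert_abs (h : BZ Z u κ) {θ A B : ℝ} (hθ : θ < 1) (hB : 0 < B)
    (hg : ∀ s : ℂ, θ ≤ s.re → s.re ≤ 2 → 3 ≤ |s.im| →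
      ‖Z s‖ ≤ A * |s.im| ^ (B * max 0 (1 - s.re) ^ (3 / 2 : ℝ)) * Real.log |s.im| ^ (2 / 3 : ℝ)) :
    ∃ T : ℝ, ∀ ρ : ℂ, Z ρ = 0 → T ≤ |ρ.im| →
      B ^ (-(2 / 3) : ℝ) ≤ 100 * (1 - ρ.re) *
        (Real.log |ρ.im| ^ (2 / 3 : ℝ) * Real.log (Real.log |ρ.im|) ^ (1 / 3 : ℝ)) := by
  obtain ⟨C1, hC1, hin⟩ := ineq_abs h
  set A1 : ℝ := max A 1 with hA1
  have hA11 : 1 ≤ A1 := le_max_right _ _
  have hlA : 0 ≤ Real.log A1 := Real.log_nonneg hA11
  set C7 : ℝ := Real.log A1 + 1 + |Real.log (14 * C1)| + |Real.log B| with hC7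
  have t2 : Tendsto (fun t : ℝ => Real.log (Real.log t)) atTop atTop :=
    Real.tendsto_log_atTop.comp Real.tendsto_log_atTop
  set ε : ℝ := min (1 / 4) (1 - θ) with hε
  have hε0 : 0 < ε := lt_min (by norm_num) (by linarith)
  have hεθ : ε ≤ 1 - θ := min_le_right _ _
  have hε4 : ε ≤ 1 / 4 := min_le_left _ _
  have o1 : ∀ᶠ y : ℝ in atTop, Real.log y ≤ (16 * ε / 49) ^ (3 / 2 : ℝ) * B * y := by
    have h1 := Real.isLittleO_log_id_atTop.bound (show 0 < (16 * ε / 49) ^ (3 / 2 : ℝ) * B by positivity)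
    filter_upwards [h1, eventually_ge_atTop 1] with y hy hy1
    rw [Real.norm_of_nonneg (Real.log_nonneg hy1), id, Real.norm_of_nonneg (by linarith)] at hy
    exact hy
  have o2 : ∀ᶠ y : ℝ in atTop, Real.log y ≤ 1 / 200 * y := by
    have h1 := Real.isLittleO_log_id_atTop.bound (show (0 : ℝ) < 1 / 200 by norm_num)
    filter_upwards [h1, eventually_ge_atTop 1] with y hy hy1
    rw [Real.norm_of_nonneg (Real.log_nonneg hy1), id, Real.norm_of_nonneg (by linarith)] at hy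
    exact hy
  have hev : ∀ᶠ t : ℝ in atTop, 110 ≤ Real.log t ∧ 200 * C7 ≤ Real.log (Real.log t) ∧
      100 * C1 ≤ Real.log (Real.log t) ∧ Real.log (Real.log t) ≤ (16 * ε / 49) ^ (3 / 2 : ℝ) * B * Real.log t ∧
      Real.log (Real.log (Real.log t)) ≤ 1 / 200 * Real.log (Real.log t) ∧ 4 ≤ t :=
    (Real.tendsto_log_atTop.eventually_ge_atTop _).and ((t2.eventually_ge_atTop _).and
      ((t2.eventually_ge_atTop _).and ((Real.tendsto_log_atTop.eventually o1).and
      ((t2.eventually o2).and (eventually_ge_atTop _)))))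
  obtain ⟨T, hT⟩ := hev.exists_forall_of_atTop
  refine ⟨T, fun ρ hρ hTρ => ?_⟩
  obtain ⟨f1, f2, f3, f4, f5, f6⟩ := hT |ρ.im| hTρ
  set G : ℝ := |ρ.im| with hG
  set L : ℝ := Real.log G with hL
  set x : ℝ := Real.log L with hx
  have hL0 : 0 < L := by linarith
  have hx0 : 300 ≤ x := by linarith
  have hBL : 0 < B * L := by positivity
  set P : ℝ := (B * L) ^ (1 / 3 : ℝ) with hP
  set Q : ℝ := x ^ (1 / 3 : ℝ) with hQ
  have hP0 : 0 < P := Real.rpow_pos_of_pos hBL _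
  have hQ0 : 0 < Q := Real.rpow_pos_of_pos (by linarith) _
  have hP3 : P ^ 3 = B * L := cube_rpow hBL.le
  have hQ3 : Q ^ 3 = x := cube_rpow (by linarith)
  have hP2 : P ^ 2 = B ^ (2 / 3 : ℝ) * L ^ (2 / 3 : ℝ) := by
    rw [hP, sq_rpow hBL.le, Real.mul_rpow hB.le hL0.le]
  have hQ1 : 1 ≤ Q := Real.one_le_rpow (by linarith) (by norm_num)
  set r : ℝ := 49 / 16 * (Q / P) ^ 2 with hr
  have hr0 : 0 < r := by positivity
  -- `r ≤ ε`
  have hrε : r ≤ ε := by
    set e : ℝ := (16 * ε / 49) ^ (1 / 2 : ℝ) with he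
    have he0 : 0 < e := Real.rpow_pos_of_pos (by positivity) _
    have he2 : e ^ 2 = 16 * ε / 49 := by
      rw [he, ← Real.rpow_natCast, ← Real.rpow_mul (by positivity)]
      norm_num
    have he3 : e ^ 3 = (16 * ε / 49) ^ (3 / 2 : ℝ) := by
      rw [he, ← Real.rpow_natCast, ← Real.rpow_mul (by positivity)]
      norm_num
    have h1 : Q ^ 3 ≤ (e * P) ^ 3 := by
      rw [mul_pow, hQ3, hP3, he3]
      linarith
    have h2 : Q ≤ e * P := le_of_pow_le_pow_left₀ (by norm_num) (by positivity) h1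
    have h3 : Q / P ≤ e := by rw [div_le_iff₀ hP0]; exact h2
    have h4 : (Q / P) ^ 2 ≤ e ^ 2 := pow_le_pow_left₀ (by positivity) h3 2
    rw [he2] at h4
    rw [hr]
    linarith
  have hr4 : r ≤ 1 / 4 := hrε.trans hε4
  have hrθ : r ≤ 1 - θ := hrε.trans hεθ
  have hPQ : 49 * Q ^ 2 ≤ 4 * P ^ 2 := by
    have h1 : 49 / 16 * (Q ^ 2 / P ^ 2) ≤ 1 / 4 := by rw [← div_pow]; exact hr4
    have h2 : Q ^ 2 / P ^ 2 ≤ 4 / 49 := by linarith
    rw [div_le_iff₀ (by positivity)] at h2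
    linarith
  set V : ℝ := P ^ 2 * Q with hV
  have hV0 : 0 < V := by positivity
  have hVx : x ≤ V := by
    rw [hV, ← hQ3]
    nlinarith
  have hVeq : V = B ^ (2 / 3 : ℝ) * (L ^ (2 / 3 : ℝ) * x ^ (1 / 3 : ℝ)) := by
    rw [hV, hP2, hQ]; ring
  by_contra hcon
  rw [not_le] at hcon
  have hη : 1 - ρ.re < 1 / (100 * V) := by
    rw [lt_div_iff₀ (by positivity), hVeq]
    have h1 : 0 < B ^ (2 / 3 : ℝ) := Real.rpow_pos_of_pos hB _
    have h2 : B ^ (2 / 3 : ℝ) * B ^ (-(2 / 3) : ℝ) = 1 := by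
      rw [← Real.rpow_add hB]
      norm_num
    calc (1 - ρ.re) * (100 * (B ^ (2 / 3 : ℝ) * (L ^ (2 / 3 : ℝ) * x ^ (1 / 3 : ℝ)))) =
        B ^ (2 / 3 : ℝ) * (100 * (1 - ρ.re) * (L ^ (2 / 3 : ℝ) * x ^ (1 / 3 : ℝ))) := by ring
      _ < B ^ (2 / 3 : ℝ) * B ^ (-(2 / 3) : ℝ) := mul_lt_mul_of_pos_left hcon h1
      _ = 1 := h2
  set δ : ℝ := 1 / (14 * V) with hδ
  have hδ0 : 0 < δ := by positivity
  have hsum : 1 / (14 * V) + 1 / (100 * V) = 57 / 700 / V := by
    field_simp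
    norm_num
  have hd : 1 + δ - ρ.re < 57 / 700 / V := by
    rw [← hsum, ← hδ]
    linarith
  -- comparison of `1 / V` with `r`
  have hVr : 1 / V ≤ r := by
    rw [hr, div_pow, div_le_iff₀ hV0, hV]
    have e1 : 49 / 16 * (Q ^ 2 / P ^ 2) * (P ^ 2 * Q) = 49 / 16 * Q ^ 3 := by field_simp
    rw [e1, hQ3]
    linarith
  have hδr : δ ≤ r := by
    refine le_trans ?_ hVr
    rw [hδ]
    exact one_div_le_one_div_of_le hV0 (by linarith)
  have hdr : 1 + δ - ρ.re < r := by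
    refine hd.trans_le (le_trans ?_ hVr)
    exact div_le_div_of_nonneg_right (by norm_num) hV0.le
  -- the growth function
  set w : ℝ := 101 / 100 * (7 / 4) * V with hw
  have hw0 : 0 < w := by positivity
  set E : ℝ := 2 / 3 * x + (Real.log A1 + 1) with hE
  have hE0 : 0 ≤ E := by positivity
  have hb : ∀ s : ℂ, 1 - r ≤ s.re → s.re ≤ 2 → (|s.im - ρ.im| ≤ 1 ∨ |s.im - 2 * ρ.im| ≤ 1) →
      ‖Z s‖ ≤ Real.exp (w * max 0 (1 - s.re) + E) := by
    intro s s1 s2 s3
    obtain ⟨i1, i2⟩ := im_range' f6 s3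
    refine (hg s (by linarith) s2 i1).trans ?_
    have m1 : 1 ≤ Real.log |s.im| := by
      have h1 := Real.log_three_gt_d9
      have h2 := Real.log_le_log (by norm_num) i1
      linarith
    have m2 : Real.log |s.im| ≤ 101 / 100 * L := by
      have h1 : Real.log |s.im| ≤ Real.log (3 * G) := Real.log_le_log (by linarith) i2
      rw [Real.log_mul (by norm_num) (by linarith)] at h1
      have h2 := Real.log_three_lt_d9
      linarith
    have m3 : Real.log (Real.log |s.im|) ≤ x + 1 := by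
      have h1 : Real.log (Real.log |s.im|) ≤ Real.log (101 / 100 * L) := Real.log_le_log (by linarith) m2
      rw [Real.log_mul (by norm_num) hL0.ne'] at h1
      have h2 := Real.log_le_sub_one_of_pos (show (0 : ℝ) < 101 / 100 by norm_num)
      linarith
    set a : ℝ := max 0 (1 - s.re) with ha
    have ha0 : 0 ≤ a := le_max_left _ _
    have har : a ≤ r := max_le hr0.le (by linarith)
    have q1 : a ^ (3 / 2 : ℝ) ≤ a * (7 / 4 * (Q / P)) := by
      rcases ha0.eq_or_lt with h0 | h0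
      · rw [← h0, Real.zero_rpow (by norm_num)]
        simp
      · have e1 : a ^ (3 / 2 : ℝ) = a * a ^ (1 / 2 : ℝ) := by
          conv_rhs => rw [← Real.rpow_one a, ← Real.rpow_mul ha0, one_mul]
          rw [← Real.rpow_add h0]
          norm_num
        rw [e1]
        refine mul_le_mul_of_nonneg_left ?_ ha0
        have h1 : a ^ (1 / 2 : ℝ) ≤ r ^ (1 / 2 : ℝ) := Real.rpow_le_rpow ha0 har (by norm_num)
        have h2 : r = (7 / 4 * (Q / P)) ^ 2 := by rw [hr]; ring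
        have h3 : r ^ (1 / 2 : ℝ) = 7 / 4 * (Q / P) := by
          rw [h2, ← Real.rpow_natCast, ← Real.rpow_mul (by positivity)]
          norm_num
        rw [h3] at h1
        exact h1
    have q2 : Real.log |s.im| * (B * a ^ (3 / 2 : ℝ)) ≤ w * a := by
      have h1 : B * a ^ (3 / 2 : ℝ) ≤ B * (a * (7 / 4 * (Q / P))) := mul_le_mul_of_nonneg_left q1 hB.le
      have h2 : Real.log |s.im| * (B * a ^ (3 / 2 : ℝ)) ≤ 101 / 100 * L * (B * (a * (7 / 4 * (Q / P)))) :=
        mul_le_mul m2 h1 (by positivity) (by positivity)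
      refine h2.trans (le_of_eq ?_)
      rw [hw, hV]
      have e1 : 101 / 100 * L * (B * (a * (7 / 4 * (Q / P)))) = 101 / 100 * (7 / 4) * (B * L) * (Q / P) * a := by
        ring
      rw [e1, ← hP3]
      field_simp
    have q3 : |s.im| ^ (B * a ^ (3 / 2 : ℝ)) ≤ Real.exp (w * a) := by
      rw [Real.rpow_def_of_pos (by linarith)]
      exact Real.exp_le_exp.2 q2
    have q4 : Real.log |s.im| ^ (2 / 3 : ℝ) ≤ Real.exp (2 / 3 * x + 1) := by
      rw [Real.rpow_def_of_pos (by linarith)]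
      refine Real.exp_le_exp.2 ?_
      linarith
    have e2 : Real.exp (w * a + E) = A1 * Real.exp (w * a) * Real.exp (2 / 3 * x + 1) := by
      have h1 : A1 = Real.exp (Real.log A1) := (Real.exp_log (by linarith)).symm
      conv_rhs => rw [h1]
      rw [← Real.exp_add, ← Real.exp_add, hE]
      congr 1
      ring
    rw [e2]
    have q5 : 0 ≤ |s.im| ^ (B * a ^ (3 / 2 : ℝ)) := Real.rpow_nonneg (abs_nonneg _) _
    refine mul_le_mul ?_ q4 (Real.rpow_nonneg (by linarith) _) (by positivity)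
    exact mul_le_mul (le_max_left _ _) q3 q5 (by linarith)
  have hρ' : Z ((ρ.re : ℂ) + ρ.im * I) = 0 := by rw [Complex.re_add_im]; exact hρ
  obtain ⟨hβ1, key⟩ := hin ρ.im δ r w E ρ.re (by linarith) hr0 hr4 hδ0 hδr hw0.le hE0 hb hdr hρ'
  have hdp : 0 < 1 + δ - ρ.re := by linarith
  have L1 : 49 * V ≤ 4 / (1 + δ - ρ.re) := by
    rw [le_div_iff₀ hdp]
    have h1 : 49 * V * (1 + δ - ρ.re) ≤ 49 * V * (57 / 700 / V) :=
      mul_le_mul_of_nonneg_left hd.le (by positivity)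
    have h2 : 49 * V * (57 / 700 / V) = 399 / 100 := by field_simp; norm_num
    linarith
  have R1 : 3 / δ = 42 * V := by rw [hδ]; field_simp; norm_num
  have R2 : 3 * C1 ≤ 3 / 100 * V := by linarith
  -- the logarithms
  have hlV : Real.log (C1 / δ) = Real.log (14 * C1) + (2 / 3 * (Real.log B + x) + 1 / 3 * Real.log x) := by
    have e1 : C1 / δ = 14 * C1 * (P ^ 2 * Q) := by rw [hδ, hV]; field_simp
    have e2 : Real.log P = 1 / 3 * (Real.log B + x) := by
      rw [hP, Real.log_rpow hBL, Real.log_mul hB.ne' hL0.ne']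
    have e3 : Real.log Q = 1 / 3 * Real.log x := by
      rw [hQ, Real.log_rpow (by linarith)]
    rw [e1, Real.log_mul (by positivity) (by positivity), Real.log_mul (by positivity) hQ0.ne', Real.log_pow, e2, e3]
    push_cast
    ring
  have hsumE : E + Real.log (C1 / δ) ≤ (4 / 3 + 1 / 100) * x := by
    rw [hlV, hE]
    have h1 := le_abs_self (Real.log (14 * C1))
    have h2 := le_abs_self (Real.log B)
    have h3 := abs_nonneg (Real.log B)
    have h4 : C7 ≤ 1 / 200 * x := by linarith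
    linarith
  have R3 : (E + Real.log (C1 / δ)) / r ≤ 44 / 100 * V := by
    rw [div_le_iff₀ hr0]
    refine hsumE.trans ?_
    have e1 : 44 / 100 * V * r = 44 / 100 * (49 / 16) * Q ^ 3 := by
      rw [hV, hr, div_pow]; field_simp
    rw [e1, hQ3]
    linarith
  have R5 : (1 + δ - ρ.re) / r ^ 2 ≤ 1 / 100 * V := by
    rw [div_le_iff₀ (by positivity)]
    refine hd.le.trans ?_
    rw [div_le_iff₀ hV0]
    have e1 : 1 / 100 * V * r ^ 2 * V = 1 / 100 * (49 / 16) ^ 2 * (Q ^ 3) ^ 2 := by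
      rw [hV, hr, div_pow]; field_simp
    rw [e1, hQ3]
    nlinarith
  rw [R1, hw] at key
  linarith

end Pool.Agent.H71.Lan
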