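import Pool.Agent.H71.Lan.AbsB
import Pool.Agent.H71.Lan.AbsC
import Pool.Agent.H71.Lan.AbsD
import Pool.Agent.H71.Lan.AbsE

/-!
# Landau's theorem for Beurling systems, with absolute constants

`landau_w_abs` (AbsB), `landau_richert_abs` (AbsC) : with the polynomial `3 + 4 cos y + cos (2 y)`.
`landau_w_four` (AbsD), `landau_richert_four` (AbsE) : constants better by a factor `2`, with a polynomial of degree `4`.
The proof : `Half` (maximum principle on a half disc), `AbsA`, `Poly` (the resulting inequalities in local form).
-/
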