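import Pool.Agent.H71.Lan.Strip

/-!
# Landau's theorem for Beurling systems : hypotheses on `re s ≤ 1` only
-/

set_option autoImplicit false

open Complex MeasureTheory Set Filter Topology Metric

namespace Pool.Agent.H71.Lan

variable {Z : ℂ → ℂ} {u : ℕ → ℝ} {κ : ℝ}

/-- a bound near the ordinates of modulus between `3` and `6` -/
lemma mid_bound (h : BZ Z u κ) : ∃ C : ℝ, 0 ≤ C ∧ ∀ s : ℂ, 3 / 4 ≤ s.re → s.re ≤ 2 → 3 ≤ |s.im| → |s.im| ≤ 6 →
    ‖Z s‖ ≤ Real.exp C := by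
  have hK : IsCompact ((Icc (3 / 4 : ℝ) 2 ×ℂ Icc (-6 : ℝ) 6) ∩ {s : ℂ | 3 ≤ |s.im|}) :=
    (isCompact_Icc.reProdIm isCompact_Icc).inter_right
      (isClosed_le continuous_const (continuous_abs.comp Complex.continuous_im))
  have hc : ContinuousOn Z ((Icc (3 / 4 : ℝ) 2 ×ℂ Icc (-6 : ℝ) 6) ∩ {s : ℂ | 3 ≤ |s.im|}) := by
    refine h.diff.continuousOn.mono ?_
    rintro s ⟨⟨h1, -⟩, h2⟩
    refine ⟨by have := h1.1; linarith, fun h3 => ?_⟩
    have h4 : 3 ≤ |s.im| := h2
    rw [h3] at h4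
    simp at h4
    linarith
  obtain ⟨C, hC⟩ := hK.exists_bound_of_continuousOn hc
  refine ⟨|C|, abs_nonneg C, fun s a b c d => ?_⟩
  have h1 := hC s ⟨⟨⟨a, b⟩, abs_le.1 d⟩, c⟩
  have h2 := Real.add_one_le_exp |C|
  have h3 := le_abs_self C
  linarith

lemma log_double {t0 : ℝ} (h : 3 ≤ |t0|) {t : ℝ} (h3 : 3 ≤ |t|) (h2 : |t| ≤ 2 * |t0|) :
    1 ≤ Real.log |t0| ∧ 1 / 2 ≤ Real.log (2 + Real.log (Real.log |t0|)) ∧ Real.log |t| ≤ 2 * Real.log |t0| ∧
    0 ≤ Real.log (2 + Real.log (Real.log |t|)) ∧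
    Real.log (2 + Real.log (Real.log |t|)) ≤ 2 * Real.log (2 + Real.log (Real.log |t0|)) := by
  obtain ⟨l1, l2, l3⟩ := loglog_facts h
  obtain ⟨m1, m2, m3, m4⟩ := l3 |t| h3 (by linarith)
  refine ⟨l1, ?_, m2, Real.log_nonneg (by linarith), ?_⟩
  · have h1 : Real.log 2 ≤ Real.log (2 + Real.log (Real.log |t0|)) := Real.log_le_log (by norm_num) (by linarith)
    have := Real.log_two_gt_d9
    linarith
  · have h1 : Real.log (2 + Real.log (Real.log |t|)) ≤ Real.log ((2 + Real.log (Real.log |t0|)) ^ 2) :=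
      Real.log_le_log (by linarith) (by nlinarith)
    rw [Real.log_pow] at h1
    push_cast at h1
    exact h1

/-- Landau's theorem: a growth function to the left of `re s = 1` gives a zero-free region -/
theorem growth_line (h : BZ Z u κ) {w : ℝ → ℝ} {θ A A0 : ℝ} (hθ : θ < 1)
    (hfin : ∀ s : ℂ, 1 ≤ s.re → s.re ≤ 2 → 3 ≤ |s.im| → ‖Z s‖ ≤ A0 * |s.im|)
    (hg : ∀ σ t : ℝ, θ ≤ σ → σ ≤ 1 → 3 ≤ |t| → ‖Z (σ + t * I)‖ ≤ Real.exp (w |t| * (1 - σ) +
      A * Real.log |t| ^ (1 - σ) * Real.log (2 + Real.log (Real.log |t|)))) :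
    ∃ A' : ℝ, 0 ≤ A' ∧ ∀ s : ℂ, θ ≤ s.re → s.re ≤ 2 → 3 ≤ |s.im| →
      ‖Z s‖ ≤ Real.exp (w |s.im| * max 0 (1 - s.re) +
        A' * Real.log |s.im| ^ max 0 (1 - s.re) * Real.log (2 + Real.log (Real.log |s.im|))) := by
  obtain ⟨C, hC, hs⟩ := strip h hfin
  obtain ⟨C6, hC6, hmid⟩ := mid_bound h
  have hA0 := abs_nonneg A
  have hlC := abs_nonneg (Real.log C)
  refine ⟨2 * |A| + 2 * |Real.log C| + 2 * C6, by positivity, fun s s1 s2 s3 => ?_⟩
  obtain ⟨l1, l2, -, -, -⟩ := log_double s3 s3 (by linarith [abs_nonneg s.im])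
  have es : ((s.re : ℂ) + s.im * I) = s := Complex.re_add_im s
  rcases le_or_gt s.re 1 with h1 | h1
  · have h2 := hg s.re s.im s1 h1 s3
    rw [es] at h2
    rw [max_eq_right (by linarith)]
    refine h2.trans (Real.exp_le_exp.2 ?_)
    have q : 0 ≤ Real.log |s.im| ^ (1 - s.re) * Real.log (2 + Real.log (Real.log |s.im|)) := by positivity
    have h3 : A * (Real.log |s.im| ^ (1 - s.re) * Real.log (2 + Real.log (Real.log |s.im|))) ≤
        (2 * |A| + 2 * |Real.log C| + 2 * C6) *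
          (Real.log |s.im| ^ (1 - s.re) * Real.log (2 + Real.log (Real.log |s.im|))) := by
      refine mul_le_mul_of_nonneg_right ?_ q
      have := le_abs_self A
      linarith
    linarith
  · rw [max_eq_left (by linarith), mul_zero, zero_add, Real.rpow_zero, mul_one]
    rcases le_or_gt 6 |s.im| with h6 | h6
    · have hM : ∀ t : ℝ, |s.im| / 2 ≤ |t| → |t| ≤ 2 * |s.im| →
          ‖Z (1 + t * I)‖ ≤ Real.exp (2 * |A| * Real.log (2 + Real.log (Real.log |s.im|))) := by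
        intro t t1 t2
        obtain ⟨-, -, -, m4, m5⟩ := log_double s3 (show 3 ≤ |t| by linarith) t2
        have h2 := hg 1 t hθ.le le_rfl (by linarith)
        rw [Complex.ofReal_one] at h2
        refine h2.trans (Real.exp_le_exp.2 ?_)
        rw [sub_self, mul_zero, zero_add, Real.rpow_zero, mul_one]
        calc A * Real.log (2 + Real.log (Real.log |t|)) ≤ |A| * Real.log (2 + Real.log (Real.log |t|)) :=
              mul_le_mul_of_nonneg_right (le_abs_self A) m4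
          _ ≤ |A| * (2 * Real.log (2 + Real.log (Real.log |s.im|))) := mul_le_mul_of_nonneg_left m5 hA0
          _ = _ := by ring
      have hM1 : 1 ≤ Real.exp (2 * |A| * Real.log (2 + Real.log (Real.log |s.im|))) :=
        Real.one_le_exp (by positivity)
      have h2 := hs s.im _ h6 hM1 hM s.re h1.le s2
      rw [es] at h2
      refine h2.trans ?_
      have h3 : C ≤ Real.exp (2 * |Real.log C| * Real.log (2 + Real.log (Real.log |s.im|))) := by
        have a : C = Real.exp (Real.log C) := (Real.exp_log hC).symm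
        calc C = Real.exp (Real.log C) := a
          _ ≤ _ := Real.exp_le_exp.2 (by
            have := le_abs_self (Real.log C)
            nlinarith)
      calc C * Real.exp (2 * |A| * Real.log (2 + Real.log (Real.log |s.im|))) ≤
            Real.exp (2 * |Real.log C| * Real.log (2 + Real.log (Real.log |s.im|))) *
              Real.exp (2 * |A| * Real.log (2 + Real.log (Real.log |s.im|))) :=
            mul_le_mul_of_nonneg_right h3 (Real.exp_pos _).le
        _ = Real.exp ((2 * |A| + 2 * |Real.log C|) * Real.log (2 + Real.log (Real.log |s.im|))) := by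
            rw [← Real.exp_add]
            congr 1
            ring
        _ ≤ _ := Real.exp_le_exp.2 (mul_le_mul_of_nonneg_right (by linarith) (by linarith))
    · refine (hmid s (by linarith) s2 s3 h6.le).trans (Real.exp_le_exp.2 ?_)
      nlinarith

theorem richert_line (h : BZ Z u κ) {θ A A0 B : ℝ} (hθ : θ < 1)
    (hfin : ∀ s : ℂ, 1 ≤ s.re → s.re ≤ 2 → 3 ≤ |s.im| → ‖Z s‖ ≤ A0 * |s.im|)
    (hg : ∀ σ t : ℝ, θ ≤ σ → σ ≤ 1 → 3 ≤ |t| →
      ‖Z (σ + t * I)‖ ≤ A * |t| ^ (B * (1 - σ) ^ (3 / 2 : ℝ)) * Real.log |t| ^ (2 / 3 : ℝ)) :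
    ∃ A' : ℝ, ∀ s : ℂ, θ ≤ s.re → s.re ≤ 2 → 3 ≤ |s.im| →
      ‖Z s‖ ≤ A' * |s.im| ^ (B * (max 0 (1 - s.re)) ^ (3 / 2 : ℝ)) * Real.log |s.im| ^ (2 / 3 : ℝ) := by
  obtain ⟨C, hC, hs⟩ := strip h hfin
  obtain ⟨C6, hC6, hmid⟩ := mid_bound h
  have hA0 := abs_nonneg A
  refine ⟨|A| + C * (2 * (|A| + 1)) + Real.exp C6, fun s s1 s2 s3 => ?_⟩
  obtain ⟨l1, l2, -, -, -⟩ := log_double s3 s3 (by linarith [abs_nonneg s.im])
  have es : ((s.re : ℂ) + s.im * I) = s := Complex.re_add_im s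
  have hE := Real.exp_pos C6
  have hl1 : 1 ≤ Real.log |s.im| ^ (2 / 3 : ℝ) := Real.one_le_rpow l1 (by norm_num)
  rcases le_or_gt s.re 1 with h1 | h1
  · have h2 := hg s.re s.im s1 h1 s3
    rw [es] at h2
    rw [max_eq_right (by linarith)]
    refine h2.trans ?_
    have q : 0 ≤ |s.im| ^ (B * (1 - s.re) ^ (3 / 2 : ℝ)) := by positivity
    refine mul_le_mul_of_nonneg_right (mul_le_mul_of_nonneg_right ?_ q) (by linarith)
    have := le_abs_self A
    have : 0 ≤ C * (2 * (|A| + 1)) := by positivity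
    linarith
  · rw [max_eq_left (by linarith), Real.zero_rpow (by norm_num), mul_zero, Real.rpow_zero, mul_one]
    rcases le_or_gt 6 |s.im| with h6 | h6
    · have hM : ∀ t : ℝ, |s.im| / 2 ≤ |t| → |t| ≤ 2 * |s.im| →
          ‖Z (1 + t * I)‖ ≤ 2 * (|A| + 1) * Real.log |s.im| ^ (2 / 3 : ℝ) := by
        intro t t1 t2
        obtain ⟨-, -, m3, -, -⟩ := log_double s3 (show 3 ≤ |t| by linarith) t2
        have h2 := hg 1 t hθ.le le_rfl (by linarith)
        rw [Complex.ofReal_one, sub_self, Real.zero_rpow (by norm_num), mul_zero, Real.rpow_zero, mul_one] at h2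
        refine h2.trans ?_
        have hlt : 0 ≤ Real.log |t| := Real.log_nonneg (by linarith)
        have h3 : Real.log |t| ^ (2 / 3 : ℝ) ≤ 2 * Real.log |s.im| ^ (2 / 3 : ℝ) := by
          refine (Real.rpow_le_rpow hlt m3 (by norm_num)).trans ?_
          rw [Real.mul_rpow (by norm_num) (by linarith)]
          refine mul_le_mul_of_nonneg_right ?_ (by linarith)
          calc (2 : ℝ) ^ (2 / 3 : ℝ) ≤ 2 ^ (1 : ℝ) := Real.rpow_le_rpow_of_exponent_le (by norm_num) (by norm_num)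
            _ = 2 := Real.rpow_one 2
        have h4 : 0 ≤ Real.log |t| ^ (2 / 3 : ℝ) := Real.rpow_nonneg hlt _
        calc A * Real.log |t| ^ (2 / 3 : ℝ) ≤ |A| * Real.log |t| ^ (2 / 3 : ℝ) :=
              mul_le_mul_of_nonneg_right (le_abs_self A) h4
          _ ≤ |A| * (2 * Real.log |s.im| ^ (2 / 3 : ℝ)) := mul_le_mul_of_nonneg_left h3 hA0
          _ ≤ _ := by nlinarith
      have hM1 : 1 ≤ 2 * (|A| + 1) * Real.log |s.im| ^ (2 / 3 : ℝ) := by nlinarith
      have h2 := hs s.im _ h6 hM1 hM s.re h1.le s2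
      rw [es] at h2
      refine h2.trans ?_
      have h3 : C * (2 * (|A| + 1) * Real.log |s.im| ^ (2 / 3 : ℝ)) =
          C * (2 * (|A| + 1)) * Real.log |s.im| ^ (2 / 3 : ℝ) := by ring
      rw [h3]
      exact mul_le_mul_of_nonneg_right (by linarith) (by linarith)
    · refine (hmid s (by linarith) s2 s3 h6.le).trans ?_
      have h3 : Real.exp C6 * 1 ≤ Real.exp C6 * Real.log |s.im| ^ (2 / 3 : ℝ) := mul_le_mul_of_nonneg_left hl1 hE.le
      have h4 : 0 ≤ (|A| + C * (2 * (|A| + 1))) * Real.log |s.im| ^ (2 / 3 : ℝ) := by positivity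
      linarith

end Pool.Agent.H71.Lan
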