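import Pool.Agent.H71.Lan.Local

/-!
# Landau's theorem for Beurling systems : growth functions

`landau_growth` : if `‖Z (σ + i t)‖ ≤ exp (w t (1 - σ) + A (log t)^(1 - σ) log (2 + log log t))` for `θ ≤ σ ≤ 1` (and the same with
`1 - σ` replaced by `0` for `1 ≤ σ ≤ 2`), then the zeros have distance at least `c / (w (3 γ) + log log γ log log log γ)` to the
line `re s = 1`. `landau_richert` : the Vinogradov-Korobov-Richert region.
-/

set_option autoImplicit false

open Complex MeasureTheory Set Filter Topology Metric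

namespace Pool.Agent.H71.Lan

variable {Z : ℂ → ℂ} {u : ℕ → ℝ} {κ : ℝ}

/-- a bound near the ordinates of modulus between `2` and `3` -/
lemma low_bound (h : BZ Z u κ) : ∃ C : ℝ, 0 ≤ C ∧ ∀ s : ℂ, 3 / 4 ≤ s.re → s.re ≤ 2 → 2 ≤ |s.im| → |s.im| ≤ 3 →
    ‖Z s‖ ≤ Real.exp C := by
  have hK : IsCompact ((Icc (3 / 4 : ℝ) 2 ×ℂ Icc (-3 : ℝ) 3) ∩ {s : ℂ | 2 ≤ |s.im|}) :=
    (isCompact_Icc.reProdIm isCompact_Icc).inter_right
      (isClosed_le continuous_const (continuous_abs.comp Complex.continuous_im))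
  have hc : ContinuousOn Z ((Icc (3 / 4 : ℝ) 2 ×ℂ Icc (-3 : ℝ) 3) ∩ {s : ℂ | 2 ≤ |s.im|}) := by
    refine h.diff.continuousOn.mono ?_
    rintro s ⟨⟨h1, -⟩, h2⟩
    refine ⟨by have := h1.1; linarith, fun h3 => ?_⟩
    have h4 : 2 ≤ |s.im| := h2
    rw [h3] at h4
    simp at h4
    linarith
  obtain ⟨C, hC⟩ := hK.exists_bound_of_continuousOn hc
  refine ⟨|C|, abs_nonneg C, fun s a b c d => ?_⟩
  have h1 := hC s ⟨⟨⟨a, b⟩, abs_le.1 d⟩, c⟩
  have h2 := Real.add_one_le_exp |C|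
  have h3 := le_abs_self C
  linarith

/-- elementary facts on the iterated logarithm -/
lemma loglog_facts {T : ℝ} (hT : 3 ≤ T) : 1 ≤ Real.log T ∧ 2 / 25 ≤ Real.log (Real.log T) ∧
    (∀ y : ℝ, 3 ≤ y → y ≤ 3 * T → 1 ≤ Real.log y ∧ Real.log y ≤ 2 * Real.log T ∧ 0 ≤ Real.log (Real.log y) ∧
      Real.log (Real.log y) ≤ 1 + Real.log (Real.log T)) := by
  have l3 : (1.0986 : ℝ) ≤ Real.log 3 := by
    have := Real.log_three_gt_d9
    linarith
  have l2 : Real.log 2 ≤ 1 := by
    have := Real.log_two_lt_d9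
    linarith
  have h1 : Real.log 3 ≤ Real.log T := Real.log_le_log (by norm_num) hT
  have h2 : 2 / 25 ≤ Real.log (Real.log T) := by
    have h3 := Real.one_sub_inv_le_log_of_pos (show 0 < Real.log T by linarith)
    have h4 : (Real.log T)⁻¹ ≤ (1.0986 : ℝ)⁻¹ := inv_anti₀ (by norm_num) (by linarith)
    have h5 : (1.0986 : ℝ)⁻¹ ≤ 23 / 25 := by norm_num
    linarith
  refine ⟨by linarith, h2, fun y hy hyT => ?_⟩
  have h3 : Real.log 3 ≤ Real.log y := Real.log_le_log (by norm_num) hy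
  have h4 : Real.log y ≤ 2 * Real.log T := by
    have h5 : Real.log y ≤ Real.log (3 * T) := Real.log_le_log (by linarith) hyT
    rw [Real.log_mul (by norm_num) (by linarith)] at h5
    linarith
  refine ⟨by linarith, h4, Real.log_nonneg (by linarith), ?_⟩
  have h5 : Real.log (Real.log y) ≤ Real.log (2 * Real.log T) := Real.log_le_log (by linarith) h4
  rw [Real.log_mul (by norm_num) (by linarith)] at h5
  linarith

lemma im_range {γ T : ℝ} (hT : T = |γ|) (h3 : 3 ≤ T) {y : ℝ} (h : |y - γ| ≤ 1 ∨ |y - 2 * γ| ≤ 1) :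
    2 ≤ |y| ∧ |y| ≤ 3 * T := by
  have a1 : ∀ a : ℝ, |y - a| ≤ 1 → |a| - 1 ≤ |y| ∧ |y| ≤ |a| + 1 := by
    intro a ha
    have h1 := abs_abs_sub_abs_le_abs_sub y a
    have h2 := abs_le.1 (h1.trans ha)
    constructor <;> linarith [h2.1, h2.2]
  have e : |2 * γ| = 2 * T := by rw [abs_mul, abs_two, hT]
  rcases h with h | h
  · obtain ⟨b, c⟩ := a1 γ h
    rw [← hT] at b c
    constructor <;> linarith
  · obtain ⟨b, c⟩ := a1 _ h
    rw [e] at b c
    constructor <;> linarith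

theorem landau_growth (h : BZ Z u κ) {w : ℝ → ℝ} (hm : MonotoneOn w (Ici 3)) {θ A : ℝ} (hθ : θ < 1)
    (hg : ∀ s : ℂ, θ ≤ s.re → s.re ≤ 2 → 3 ≤ |s.im| →
      ‖Z s‖ ≤ Real.exp (w |s.im| * max 0 (1 - s.re) +
        A * Real.log |s.im| ^ max 0 (1 - s.re) * Real.log (2 + Real.log (Real.log |s.im|)))) :
    ∃ c : ℝ, 0 < c ∧ ∀ ρ : ℂ, Z ρ = 0 → 3 ≤ |ρ.im| →
      c ≤ (1 - ρ.re) * (max 0 (w (3 * |ρ.im|)) + (1 + Real.log (Real.log |ρ.im|)) *
        Real.log (2 + Real.log (Real.log |ρ.im|))) := by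
  obtain ⟨c, hc, hloc⟩ := local_free h
  obtain ⟨C3, hC3, hlow⟩ := low_bound h
  set r0 : ℝ := min (1 / 4) (1 - θ) with hr0
  have hr00 : 0 < r0 := lt_min (by norm_num) (by linarith)
  have hr04 : r0 ≤ 1 / 4 := min_le_left _ _
  have hr0θ : r0 ≤ 1 - θ := min_le_right _ _
  have hlr0 : 0 ≤ Real.log (1 / r0) := Real.log_nonneg (by rw [le_div_iff₀ hr00]; linarith)
  set C4 : ℝ := C3 + Real.log (1 / r0) + 1 with hC4
  set C5 : ℝ := (6 * |A| + 1 + 2 * C4) / r0 with hC5
  have hC40 : 1 ≤ C4 := by linarith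
  have hA0 : 0 ≤ |A| := abs_nonneg A
  have hC51 : 1 ≤ C5 := by
    rw [hC5, le_div_iff₀ hr00]
    linarith
  refine ⟨c / C5, by positivity, fun ρ hρ hT => ?_⟩
  set T : ℝ := |ρ.im| with hTd
  obtain ⟨l1, l2, l3⟩ := loglog_facts hT
  set L : ℝ := Real.log (Real.log T) with hL
  set W : ℝ := max 0 (w (3 * T)) with hW
  have hW0 : 0 ≤ W := le_max_left _ _
  have hL1 : 0 < 1 + L := by linarith
  set r : ℝ := r0 / (1 + L) with hr
  have hrpos : 0 < r := by positivity
  have hrr0 : r ≤ r0 := by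
    rw [hr, div_le_iff₀ hL1]
    nlinarith
  have hlg2 : 1 / 2 ≤ Real.log (2 + L) := by
    have h1 : Real.log 2 ≤ Real.log (2 + L) := Real.log_le_log (by norm_num) (by linarith)
    have := Real.log_two_gt_d9
    linarith
  set M : ℝ := W * r + 6 * |A| * Real.log (2 + L) + C3 with hM
  have hM0 : 0 ≤ M := by positivity
  have hb : ∀ s : ℂ, 1 - r ≤ s.re → s.re ≤ 2 → (|s.im - ρ.im| ≤ 1 ∨ |s.im - 2 * ρ.im| ≤ 1) →
      ‖Z s‖ ≤ Real.exp M := by
    intro s s1 s2 s3
    obtain ⟨i1, i2⟩ := im_range hTd hT s3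
    rcases le_or_gt 3 |s.im| with i3 | i3
    · refine (hg s (by linarith) s2 i3).trans (Real.exp_le_exp.2 ?_)
      obtain ⟨m1, m2, m3, m4⟩ := l3 _ i3 i2
      set a : ℝ := max 0 (1 - s.re) with ha
      have ha0 : 0 ≤ a := le_max_left _ _
      have har : a ≤ r := max_le hrpos.le (by linarith)
      have q1 : w |s.im| * a ≤ W * r := by
        have h1 : w |s.im| ≤ W := (hm i3 (by simp only [mem_Ici]; linarith) i2).trans (le_max_right _ _)
        exact (mul_le_mul_of_nonneg_right h1 ha0).trans (mul_le_mul_of_nonneg_left har hW0)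
      have q2 : Real.log |s.im| ^ a ≤ 3 := by
        rw [Real.rpow_def_of_pos (by linarith)]
        have h1 : Real.log (Real.log |s.im|) * a ≤ 1 := by
          have h2 : Real.log (Real.log |s.im|) * a ≤ (1 + L) * r := mul_le_mul m4 har ha0 hL1.le
          have h3 : (1 + L) * r = r0 := by rw [hr]; field_simp
          linarith
        have h4 := Real.exp_one_lt_d9
        have h5 := Real.exp_le_exp.2 h1
        linarith
      have q3 : Real.log (2 + Real.log (Real.log |s.im|)) ≤ 2 * Real.log (2 + L) := by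
        have h1 : Real.log (2 + Real.log (Real.log |s.im|)) ≤ Real.log ((2 + L) ^ 2) :=
          Real.log_le_log (by linarith) (by nlinarith)
        rw [Real.log_pow] at h1
        push_cast at h1
        exact h1
      have q4 : 0 ≤ Real.log (2 + Real.log (Real.log |s.im|)) := Real.log_nonneg (by linarith)
      have q5 : 0 ≤ Real.log |s.im| ^ a := by positivity
      have q6 : A * Real.log |s.im| ^ a * Real.log (2 + Real.log (Real.log |s.im|)) ≤
          6 * |A| * Real.log (2 + L) := by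
        calc A * Real.log |s.im| ^ a * Real.log (2 + Real.log (Real.log |s.im|)) ≤
              |A| * 3 * (2 * Real.log (2 + L)) := by
              refine mul_le_mul ?_ q3 q4 (by positivity)
              exact mul_le_mul (le_abs_self A) q2 q5 hA0
          _ = _ := by ring
      rw [hM]
      linarith
    · refine (hlow s (by linarith) s2 i1 i3.le).trans (Real.exp_le_exp.2 ?_)
      have : 0 ≤ W * r + 6 * |A| * Real.log (2 + L) := by positivity
      rw [hM]
      linarith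
  have hρ' : Z ((ρ.re : ℂ) + ρ.im * I) = 0 := by rw [Complex.re_add_im]; exact hρ
  have k1 := hloc ρ.im r M (by rw [← hTd]; linarith) hrpos (by linarith) hM0 hb ρ.re hρ'
  have hβ : 0 ≤ 1 - ρ.re := by
    by_contra h1
    rw [not_le] at h1
    exact ne_zero h (s := ρ) (by linarith) hρ
  have e1 : Real.log (1 / r) = Real.log (1 / r0) + Real.log (1 + L) := by
    rw [hr, ← Real.log_mul (by positivity) hL1.ne']
    congr 1
    field_simp
  have e2 : Real.log (1 + L) ≤ Real.log (2 + L) := Real.log_le_log hL1 (by linarith)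
  have k2 : M + Real.log (1 / r) + 1 ≤ W * r + (6 * |A| + 1 + 2 * C4) * Real.log (2 + L) := by
    rw [hM, e1]
    nlinarith
  have k3 : c * r ≤ (1 - ρ.re) * (W * r + (6 * |A| + 1 + 2 * C4) * Real.log (2 + L)) :=
    k1.trans (mul_le_mul_of_nonneg_left k2 hβ)
  have e3 : W * r + (6 * |A| + 1 + 2 * C4) * Real.log (2 + L) =
      (W + C5 * ((1 + L) * Real.log (2 + L))) * r := by
    rw [hC5, hr]
    field_simp
  rw [e3, ← mul_assoc] at k3
  have k4 : c ≤ (1 - ρ.re) * (W + C5 * ((1 + L) * Real.log (2 + L))) := le_of_mul_le_mul_right k3 hrpos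
  rw [div_le_iff₀ (by linarith)]
  refine k4.trans ?_
  have k5 : W + C5 * ((1 + L) * Real.log (2 + L)) ≤ (W + (1 + L) * Real.log (2 + L)) * C5 := by nlinarith
  calc (1 - ρ.re) * (W + C5 * ((1 + L) * Real.log (2 + L))) ≤
        (1 - ρ.re) * ((W + (1 + L) * Real.log (2 + L)) * C5) := mul_le_mul_of_nonneg_left k5 hβ
    _ = _ := by ring

end Pool.Agent.H71.Lan
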