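import Pool.Agent.H71.Lan.Half
import Pool.Agent.H71.Lan.Grow

/-!
# Landau's theorem for Beurling systems : the local form with explicit constants

`ineq_abs` : the basic inequality for a zero `β + i γ`, if `‖Z s‖ ≤ exp (w max 0 (1 - re s) + E)` for `re s ≥ 1 - r` near the
ordinates `γ` and `2 γ`.
-/

set_option autoImplicit false

open Complex MeasureTheory Set Filter Topology Metric

namespace Pool.Agent.H71.Lan

variable {Z : ℂ → ℂ} {u : ℕ → ℝ} {κ : ℝ}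

/-- the bound for the logarithmic derivative at `1 + δ + i γ` -/
theorem disc_abs (h : BZ Z u κ) : ∃ C1 : ℝ, 3 ≤ C1 ∧ (∀ δ : ℝ, 0 < δ → δ ≤ 1 →
      -(deriv Z ((1 + δ : ℝ) : ℂ) / Z ((1 + δ : ℝ) : ℂ)).re ≤ 1 / δ + C1) ∧
    ∀ γ δ r w E : ℝ, 2 ≤ |γ| → 0 < r → r ≤ 1 / 4 → 0 < δ → δ ≤ r → 0 ≤ w → 0 ≤ E →
    (∀ s : ℂ, 1 - r ≤ s.re → s.re ≤ 2 → |s.im - γ| ≤ 1 → ‖Z s‖ ≤ Real.exp (w * max 0 (1 - s.re) + E)) →
    -(deriv Z (((1 + δ : ℝ) : ℂ) + γ * I) / Z (((1 + δ : ℝ) : ℂ) + γ * I)).re ≤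
      w / 2 + (E + Real.log (C1 / δ)) / r ∧
    ∀ β : ℝ, β ≤ 1 → 1 + δ - β < r → Z (β + γ * I) = 0 →
    -(deriv Z (((1 + δ : ℝ) : ℂ) + γ * I) / Z (((1 + δ : ℝ) : ℂ) + γ * I)).re ≤
      w / 2 + (E + Real.log (C1 / δ)) / r - 1 / (1 + δ - β) + (1 + δ - β) / r ^ 2 := by
  obtain ⟨C1, hC1, hp⟩ := pole h
  refine ⟨C1, hC1, fun δ h0 h1 => (hp δ h0 h1).2, ?_⟩
  intro γ δ r w E hγ hr hr4 hδ hδr hw hE hb
  set s0 : ℂ := ((1 + δ : ℝ) : ℂ) + γ * I with hs0
  have hs0re : s0.re = 1 + δ := by rw [hs0]; simp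
  have hs0im : s0.im = γ := by rw [hs0]; simp
  have hrC : (r : ℂ) ≠ 0 := by exact_mod_cast hr.ne'
  set f : ℂ → ℂ := fun z => Z (s0 + r * z) with hf
  have hre : ∀ z : ℂ, (s0 + r * z).re = 1 + δ + r * z.re := by
    intro z
    rw [Complex.add_re, hs0re, Complex.re_ofReal_mul]
  have him : ∀ z : ℂ, (s0 + r * z).im = γ + r * z.im := by
    intro z
    rw [Complex.add_im, hs0im, Complex.im_ofReal_mul]
  have hz1 : ∀ z : ℂ, ‖z‖ ≤ 1 → |z.re| ≤ 1 ∧ |z.im| ≤ 1 := fun z hz =>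
    ⟨(Complex.abs_re_le_norm z).trans hz, (Complex.abs_im_le_norm z).trans hz⟩
  have hdom : ∀ z : ℂ, ‖z‖ ≤ 1 → 1 - r ≤ (s0 + r * z).re ∧ (s0 + r * z).re ≤ 2 ∧
      |(s0 + r * z).im - γ| ≤ 1 ∧ (s0 + r * z) ≠ 1 := by
    intro z hz
    obtain ⟨a, b⟩ := hz1 z hz
    rw [abs_le] at a b
    have e1 := hre z
    have e2 := him z
    refine ⟨?_, ?_, ?_, ?_⟩
    · rw [e1]; nlinarith
    · rw [e1]; nlinarith
    · rw [e2, abs_le]; constructor <;> nlinarith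
    · intro h1
      have h2 : (s0 + r * z).im = 0 := by rw [h1]; simp
      rw [e2] at h2
      have h3 : γ = -(r * z.im) := by linarith
      have h4 : |γ| ≤ 1 := by
        rw [h3, abs_neg, abs_le]; constructor <;> nlinarith
      linarith
  have hδ1 : δ ≤ 1 := by linarith
  have hC1δ : 1 < C1 / δ := by
    rw [lt_div_iff₀ hδ]
    linarith
  have hE' : 0 ≤ E + Real.log (C1 / δ) := by
    have := Real.log_pos hC1δ
    linarith
  have hf0 : f 0 = Z s0 := by rw [hf]; simp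
  have hfa : ∀ z : ℂ, ‖z‖ ≤ 1 → AnalyticAt ℂ f z := by
    intro z hz
    obtain ⟨a, b, c, d⟩ := hdom z hz
    have h1 : AnalyticAt ℂ Z (s0 + r * z) :=
      h.diff.analyticAt (isOpen_dom.mem_nhds ⟨by linarith, d⟩)
    have h2 : AnalyticAt ℂ (fun z : ℂ => s0 + r * z) z := by fun_prop
    exact h1.comp_of_eq h2 rfl
  have hfz : ∀ z : ℂ, ‖z‖ ≤ 1 → f z = 0 → z.re < 0 := by
    intro z hz h0
    by_contra hcon
    rw [not_lt] at hcon
    refine ne_zero h (s := s0 + r * z) ?_ h0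
    rw [hre z]
    nlinarith
  have hfb : ∀ z : ℂ, ‖z‖ = 1 → 0 ≤ z.re →
      ‖f (-z)‖ ≤ Real.exp (w * r * z.re + (E + Real.log (C1 / δ))) * ‖f (starRingEnd ℂ z)‖ := by
    intro z hz h0
    have hz' : ‖-z‖ ≤ 1 := by rw [norm_neg, hz]
    obtain ⟨a, b, c, d⟩ := hdom (-z) hz'
    have h1 := hb _ a b c
    have h2 : w * max 0 (1 - (s0 + r * -z).re) ≤ w * r * z.re := by
      rw [mul_assoc]
      refine mul_le_mul_of_nonneg_left (max_le (by positivity) ?_) hw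
      rw [hre (-z), Complex.neg_re]
      linarith
    have h3 : ‖f (-z)‖ ≤ Real.exp (w * r * z.re + E) := h1.trans (Real.exp_le_exp.2 (by linarith))
    have hre2 : (s0 + r * starRingEnd ℂ z).re = 1 + (δ + r * z.re) := by
      rw [hre, Complex.conj_re]; ring
    have hd0 : 0 < δ + r * z.re := by positivity
    have hzr : z.re ≤ 1 := by
      have := Complex.re_le_norm z
      rwa [hz] at this
    have hd1 : δ + r * z.re ≤ 1 := by nlinarith
    have h4 := one_le h (s := s0 + r * starRingEnd ℂ z) (by rw [hre2]; linarith)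
    rw [hre2] at h4
    have h5 := (hp (δ + r * z.re) hd0 hd1).1
    have h6 : C1 / (δ + r * z.re) ≤ C1 / δ :=
      div_le_div_of_nonneg_left (by linarith) hδ (by nlinarith)
    have h7 : 1 ≤ C1 / δ * ‖f (starRingEnd ℂ z)‖ := by
      refine h4.trans ?_
      rw [mul_comm]
      exact mul_le_mul_of_nonneg_right (h5.trans h6) (norm_nonneg _)
    have e3 : Real.exp (w * r * z.re + (E + Real.log (C1 / δ))) = Real.exp (w * r * z.re + E) * (C1 / δ) := by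
      rw [← add_assoc, Real.exp_add, Real.exp_log (by linarith)]
    rw [e3, mul_assoc]
    calc ‖f (-z)‖ ≤ Real.exp (w * r * z.re + E) * 1 := by linarith
      _ ≤ _ := mul_le_mul_of_nonneg_left h7 (Real.exp_pos _).le
  have hder : deriv f 0 = r * deriv Z s0 := by
    have hd : DifferentiableAt ℂ Z (s0 + r * 0) := by
      have := hdom 0 (by simp)
      refine diffAt h ?_ this.2.2.2
      have := this.1
      linarith
    have h1 : HasDerivAt (fun z : ℂ => s0 + r * z) (r : ℂ) 0 := by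
      simpa using ((hasDerivAt_id (0 : ℂ)).const_mul (r : ℂ)).const_add s0
    have h2 := hd.hasDerivAt.comp (0 : ℂ) h1
    have h3 : deriv f 0 = deriv Z (s0 + r * 0) * r := h2.deriv
    rw [h3, mul_zero, add_zero, mul_comm]
  have hq : (deriv f 0 / f 0).re = r * (deriv Z s0 / Z s0).re := by
    rw [hder, hf0, mul_div_assoc, Complex.re_ofReal_mul]
  constructor
  · have k1 := half_one hE' (fun z hz => (hfa z hz).differentiableAt) hfz hfb
    rw [hq] at k1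
    have e : w / 2 + (E + Real.log (C1 / δ)) / r = (w * r / 2 + (E + Real.log (C1 / δ))) / r := by
      field_simp
    rw [e, le_div_iff₀ hr]
    linarith
  · intro β hβ hβr hβz
    have hx0 : 0 < (1 + δ - β) / r := div_pos (by linarith) hr
    have hx1 : (1 + δ - β) / r < 1 := by rw [div_lt_one hr]; exact hβr
    have hfx : f (-(((1 + δ - β) / r : ℝ) : ℂ)) = 0 := by
      rw [hf]
      have e : s0 + r * (-(((1 + δ - β) / r : ℝ) : ℂ)) = β + γ * I := by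
        rw [hs0]
        push_cast
        field_simp
        ring
      simp only [e, hβz]
    have k3 := half_zero hE' hfa hfz hfb hx0 hx1 hfx
    rw [hq] at k3
    have hb0 : (1 + δ - β) ≠ 0 := by linarith
    have e : w / 2 + (E + Real.log (C1 / δ)) / r - 1 / (1 + δ - β) + (1 + δ - β) / r ^ 2 =
        (w * r / 2 + (E + Real.log (C1 / δ)) - (1 / ((1 + δ - β) / r) - (1 + δ - β) / r)) / r := by
      field_simp
      ring
    rw [e, le_div_iff₀ hr]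
    linarith

/-- the basic inequality -/
theorem ineq_abs (h : BZ Z u κ) : ∃ C1 : ℝ, 3 ≤ C1 ∧
    ∀ γ δ r w E β : ℝ, 2 ≤ |γ| → 0 < r → r ≤ 1 / 4 → 0 < δ → δ ≤ r → 0 ≤ w → 0 ≤ E →
    (∀ s : ℂ, 1 - r ≤ s.re → s.re ≤ 2 → (|s.im - γ| ≤ 1 ∨ |s.im - 2 * γ| ≤ 1) →
      ‖Z s‖ ≤ Real.exp (w * max 0 (1 - s.re) + E)) →
    1 + δ - β < r → Z (β + γ * I) = 0 →
    β ≤ 1 ∧ 4 / (1 + δ - β) ≤ 3 / δ + 3 * C1 + 5 / 2 * w + 5 * ((E + Real.log (C1 / δ)) / r) +
      4 * ((1 + δ - β) / r ^ 2) := by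
  obtain ⟨C1, hC1, hp, hd⟩ := disc_abs h
  refine ⟨C1, hC1, ?_⟩
  intro γ δ r w E β hγ hr hr4 hδ hδr hw hE hb hβr hβ
  have hβ1 : β ≤ 1 := by
    by_contra h1
    rw [not_le] at h1
    exact ne_zero h (s := β + γ * I) (by simpa using h1) hβ
  have h2γ : 2 ≤ |2 * γ| := by
    rw [abs_mul, abs_two]
    linarith
  obtain ⟨-, k1⟩ := hd γ δ r w E hγ hr hr4 hδ hδr hw hE fun s a b c => hb s a b (Or.inl c)
  obtain ⟨k2, -⟩ := hd (2 * γ) δ r w E h2γ hr hr4 hδ hδr hw hE fun s a b c => hb s a b (Or.inr c)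
  have k3 := k1 β hβ1 hβr hβ
  have k4 := hp δ hδ (by linarith)
  have k5 := three_four_one h γ (σ := 1 + δ) (by linarith)
  have e2 : (((2 * γ : ℝ)) : ℂ) = 2 * γ := by push_cast; ring
  rw [e2] at k2
  refine ⟨hβ1, ?_⟩
  have e3 : 4 / (1 + δ - β) = 4 * (1 / (1 + δ - β)) := by ring
  have e4 : 3 / δ = 3 * (1 / δ) := by ring
  rw [e3, e4]
  linarith

lemma im_range' {γ : ℝ} (h4 : 4 ≤ |γ|) {y : ℝ} (h : |y - γ| ≤ 1 ∨ |y - 2 * γ| ≤ 1) :
    3 ≤ |y| ∧ |y| ≤ 3 * |γ| := by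
  have a1 : ∀ a : ℝ, |y - a| ≤ 1 → |a| - 1 ≤ |y| ∧ |y| ≤ |a| + 1 := by
    intro a ha
    have h1 := abs_abs_sub_abs_le_abs_sub y a
    have h2 := abs_le.1 (h1.trans ha)
    constructor <;> linarith [h2.1, h2.2]
  have e : |2 * γ| = 2 * |γ| := by rw [abs_mul, abs_two]
  rcases h with h | h
  · obtain ⟨b, c⟩ := a1 γ h
    constructor <;> linarith
  · obtain ⟨b, c⟩ := a1 _ h
    rw [e] at b c
    constructor <;> linarith

end Pool.Agent.H71.Lan
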