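import Pool.Agent.H71.Lan.AbsA

/-!
# Landau's theorem for Beurling systems : growth functions, with an absolute constant

`landau_w_abs` : if `‖Z (σ + i t)‖ ≤ exp (w t (1 - σ) + A (log t)^(1 - σ) log (2 + log log t))` for `θ ≤ σ ≤ 1` (and the same with
`1 - σ` replaced by `0` for `1 ≤ σ ≤ 2`), where `w` is nondecreasing and `log log t log log log t = o(w t)`, then all zeros `β + i γ`
of large ordinate have `1 - β ≥ 1 / (35 w (3 |γ|))`.
-/

set_option autoImplicit false

open Complex MeasureTheory Set Filter Topology Metric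

namespace Pool.Agent.H71.Lan

variable {Z : ℂ → ℂ} {u : ℕ → ℝ} {κ : ℝ}

theorem landau_w_abs (h : BZ Z u κ) {w : ℝ → ℝ} (hm : MonotoneOn w (Ici 3)) {θ A : ℝ} (hθ : θ < 1)
    (hg : ∀ s : ℂ, θ ≤ s.re → s.re ≤ 2 → 3 ≤ |s.im| →
      ‖Z s‖ ≤ Real.exp (w |s.im| * max 0 (1 - s.re) +
        A * Real.log |s.im| ^ max 0 (1 - s.re) * Real.log (2 + Real.log (Real.log |s.im|))))
    (hw : Tendsto (fun t => w t / (Real.log (Real.log t) * Real.log (Real.log (Real.log t)))) atTop atTop) :
    ∃ T : ℝ, ∀ ρ : ℂ, Z ρ = 0 → T ≤ |ρ.im| → 1 ≤ 35 * (1 - ρ.re) * w (3 * |ρ.im|) := by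
  obtain ⟨C1, hC1, hin⟩ := ineq_abs h
  have hA0 : 0 ≤ |A| := abs_nonneg A
  set c6 : ℝ := |Real.log (16 * C1 / 3)| with hc6
  have hc60 : 0 ≤ c6 := abs_nonneg _
  set S : ℝ := 3 * C1 + 30 * |A| + 5 * c6 + 6 with hS
  have hS0 : 0 < S := by positivity
  set k : ℝ := 2000 + S with hk
  have hk0 : 0 < k := by positivity
  have t2 : Tendsto (fun t : ℝ => Real.log (Real.log t)) atTop atTop :=
    Real.tendsto_log_atTop.comp Real.tendsto_log_atTop
  have t3 : Tendsto (fun t : ℝ => Real.log (Real.log (Real.log t))) atTop atTop :=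
    Real.tendsto_log_atTop.comp t2
  have hev : ∀ᶠ t : ℝ in atTop, k ^ 2 ≤ w t / (Real.log (Real.log t) * Real.log (Real.log (Real.log t))) ∧
      4 ≤ Real.log (Real.log t) ∧ 1 / (1 - θ) ≤ Real.log (Real.log t) ∧
      1 ≤ Real.log (Real.log (Real.log t)) ∧ 12 ≤ t :=
    (hw.eventually_ge_atTop _).and ((t2.eventually_ge_atTop _).and ((t2.eventually_ge_atTop _).and
      ((t3.eventually_ge_atTop _).and (eventually_ge_atTop _))))
  obtain ⟨T, hT⟩ := hev.exists_forall_of_atTop
  refine ⟨max T 4, fun ρ hρ hTρ => ?_⟩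
  have hT1 : T ≤ |ρ.im| := (le_max_left _ _).trans hTρ
  have hT4 : 4 ≤ |ρ.im| := (le_max_right _ _).trans hTρ
  obtain ⟨f1, f2, f3, f4, f5⟩ := hT (3 * |ρ.im|) (by linarith [abs_nonneg ρ.im])
  set t : ℝ := 3 * |ρ.im| with ht
  set x : ℝ := Real.log (Real.log t) with hx
  set y : ℝ := Real.log x with hy
  set W : ℝ := w t with hW
  have hx0 : 0 < x := by linarith
  have hy0 : 0 < y := by linarith
  rw [le_div_iff₀ (mul_pos hx0 hy0)] at f1
  have hθ' : 0 < 1 - θ := by linarith
  have hk1 : 1 ≤ k ^ 2 := by nlinarith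
  have hWx : k ^ 2 * x ≤ W := by
    have : x ≤ x * y := le_mul_of_one_le_right hx0.le f4
    exact (mul_le_mul_of_nonneg_left this (by positivity)).trans f1
  have hxW : x ≤ W := by nlinarith
  have hW0 : 0 < W := by linarith
  have hL1 : 1 ≤ Real.log t := by
    by_contra hcon
    rw [not_le] at hcon
    have h1 : 0 < Real.log t := Real.log_pos (by linarith)
    have h2 := Real.log_nonpos h1.le hcon.le
    rw [← hx] at h2
    linarith
  by_contra hcon
  rw [not_le] at hcon
  set r : ℝ := 1 / x with hr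
  have hr0 : 0 < r := by positivity
  have hr4 : r ≤ 1 / 4 := one_div_le_one_div_of_le (by norm_num) f2
  have hrθ : r ≤ 1 - θ := by
    rw [div_le_iff₀ hθ'] at f3
    rw [hr, div_le_iff₀ hx0]
    linarith
  set δ : ℝ := 3 / (16 * W) with hδ
  have hδ0 : 0 < δ := by positivity
  have hδr : δ ≤ r := by
    rw [hδ, hr, div_le_div_iff₀ (by positivity) hx0]
    linarith
  set E : ℝ := 3 * |A| * Real.log (2 + x) with hE
  have hlx : 0 ≤ Real.log (2 + x) := Real.log_nonneg (by linarith)
  have hE0 : 0 ≤ E := by positivity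
  have hη : 1 - ρ.re < 1 / (35 * W) := by
    rw [lt_div_iff₀ (by positivity)]
    linarith
  have hsum : 3 / (16 * W) + 1 / (35 * W) = 121 / 560 / W := by
    field_simp
    norm_num
  have hd : 1 + δ - ρ.re < 121 / 560 / W := by
    rw [← hsum, ← hδ]
    linarith
  have hdr : 1 + δ - ρ.re < r := by
    refine hd.trans_le ?_
    rw [hr, div_le_div_iff₀ hW0 hx0]
    linarith
  have hb : ∀ s : ℂ, 1 - r ≤ s.re → s.re ≤ 2 → (|s.im - ρ.im| ≤ 1 ∨ |s.im - 2 * ρ.im| ≤ 1) →
      ‖Z s‖ ≤ Real.exp (W * max 0 (1 - s.re) + E) := by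
    intro s s1 s2 s3
    obtain ⟨i1, i2⟩ := im_range' hT4 s3
    refine (hg s (by linarith) s2 i1).trans (Real.exp_le_exp.2 ?_)
    have m1 : 1 ≤ Real.log |s.im| := by
      have h1 := Real.log_three_gt_d9
      have h2 := Real.log_le_log (by norm_num) i1
      linarith
    have m2 : Real.log |s.im| ≤ Real.log t := Real.log_le_log (by linarith) i2
    have m3 : Real.log (Real.log |s.im|) ≤ x := Real.log_le_log (by linarith) m2
    have m4 : 0 ≤ Real.log (Real.log |s.im|) := Real.log_nonneg m1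
    set a : ℝ := max 0 (1 - s.re) with ha
    have ha0 : 0 ≤ a := le_max_left _ _
    have har : a ≤ r := max_le hr0.le (by linarith)
    have q1 : w |s.im| * a ≤ W * a := mul_le_mul_of_nonneg_right (hm i1 (by simp only [mem_Ici]; linarith) i2) ha0
    have q2 : Real.log |s.im| ^ a ≤ 3 := by
      rw [Real.rpow_def_of_pos (by linarith)]
      have h1 : Real.log (Real.log |s.im|) * a ≤ 1 := by
        have h2 : Real.log (Real.log |s.im|) * a ≤ x * r := mul_le_mul m3 har ha0 hx0.le
        have h3 : x * r = 1 := by rw [hr]; field_simp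
        linarith
      have h4 := Real.exp_one_lt_d9
      have h5 := Real.exp_le_exp.2 h1
      linarith
    have q3 : Real.log (2 + Real.log (Real.log |s.im|)) ≤ Real.log (2 + x) := Real.log_le_log (by linarith) (by linarith)
    have q4 : 0 ≤ Real.log (2 + Real.log (Real.log |s.im|)) := Real.log_nonneg (by linarith)
    have q5 : 0 ≤ Real.log |s.im| ^ a := Real.rpow_nonneg (by linarith) _
    have q6 : A * Real.log |s.im| ^ a * Real.log (2 + Real.log (Real.log |s.im|)) ≤ E := by
      calc A * Real.log |s.im| ^ a * Real.log (2 + Real.log (Real.log |s.im|))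
          ≤ |A| * 3 * Real.log (2 + x) := by
            refine mul_le_mul ?_ q3 q4 (by positivity)
            refine (mul_le_mul_of_nonneg_right (le_abs_self A) q5).trans ?_
            exact mul_le_mul_of_nonneg_left q2 hA0
        _ = E := by rw [hE]; ring
    linarith
  have hρ' : Z ((ρ.re : ℂ) + ρ.im * I) = 0 := by rw [Complex.re_add_im]; exact hρ
  obtain ⟨hβ1, key⟩ := hin ρ.im δ r W E ρ.re (by linarith) hr0 hr4 hδ0 hδr hW0.le hE0 hb hdr hρ'
  -- the terms of the inequality
  have hdp : 0 < 1 + δ - ρ.re := by linarith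
  have L1 : 2240 / 121 * W ≤ 4 / (1 + δ - ρ.re) := by
    rw [le_div_iff₀ hdp]
    have h1 : 2240 / 121 * W * (1 + δ - ρ.re) ≤ 2240 / 121 * W * (121 / 560 / W) :=
      mul_le_mul_of_nonneg_left hd.le (by positivity)
    have h2 : 2240 / 121 * W * (121 / 560 / W) = 4 := by field_simp; norm_num
    linarith
  have R1 : 3 / δ = 16 * W := by rw [hδ]; field_simp
  have R2 : 3 * C1 ≤ 3 * C1 * (W / k ^ 2) := by
    have h1 : 1 ≤ W / k ^ 2 := by
      rw [le_div_iff₀ (by positivity)]
      nlinarith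
    nlinarith
  have hlog2 : Real.log (2 + x) ≤ 2 * y := by
    have h1 : Real.log (2 + x) ≤ Real.log (x ^ 2) := Real.log_le_log (by linarith) (by nlinarith)
    rw [Real.log_pow] at h1
    push_cast at h1
    exact h1
  have hxy : x * y ≤ W / k ^ 2 := by
    rw [le_div_iff₀ (by positivity)]
    linarith
  have hxk : x ≤ W / k ^ 2 := by
    rw [le_div_iff₀ (by positivity)]
    linarith
  have R3 : E / r ≤ 6 * |A| * (W / k ^ 2) := by
    have e1 : E / r = 3 * |A| * (x * Real.log (2 + x)) := by rw [hE, hr]; field_simp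
    rw [e1]
    have h1 : x * Real.log (2 + x) ≤ x * (2 * y) := mul_le_mul_of_nonneg_left hlog2 hx0.le
    have h2 : x * Real.log (2 + x) ≤ 2 * (W / k ^ 2) := by linarith
    calc 3 * |A| * (x * Real.log (2 + x)) ≤ 3 * |A| * (2 * (W / k ^ 2)) :=
          mul_le_mul_of_nonneg_left h2 (by positivity)
      _ = _ := by ring
  have R4 : Real.log (C1 / δ) / r ≤ (c6 + 1) * (W / k ^ 2) + 2 * (W / k) := by
    have e1 : C1 / δ = 16 * C1 / 3 * (x * (k * (W / (x * k)))) := by
      rw [hδ]; field_simp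
    have hWk : 0 < W / (x * k) := by positivity
    have e2 : Real.log (C1 / δ) = Real.log (16 * C1 / 3) + (y + (Real.log k + Real.log (W / (x * k)))) := by
      rw [e1, Real.log_mul (by positivity) (by positivity), Real.log_mul hx0.ne' (by positivity),
        Real.log_mul hk0.ne' hWk.ne']
    have h1 := Real.log_le_sub_one_of_pos hk0
    have h2 := Real.log_le_sub_one_of_pos hWk
    have h3 := le_abs_self (Real.log (16 * C1 / 3))
    have h4 : Real.log (C1 / δ) ≤ c6 + y + k + W / (x * k) := by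
      rw [e2]
      linarith
    have e3 : Real.log (C1 / δ) / r = Real.log (C1 / δ) * x := by rw [hr]; field_simp
    rw [e3]
    have h5 : Real.log (C1 / δ) * x ≤ (c6 + y + k + W / (x * k)) * x := mul_le_mul_of_nonneg_right h4 hx0.le
    have e4 : (c6 + y + k + W / (x * k)) * x = c6 * x + x * y + k * x + W / k := by
      field_simp
    have h6 : c6 * x ≤ c6 * (W / k ^ 2) := mul_le_mul_of_nonneg_left hxk hc60
    have h7 : k * x ≤ k * (W / k ^ 2) := mul_le_mul_of_nonneg_left hxk hk0.le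
    have e5 : k * (W / k ^ 2) = W / k := by field_simp
    rw [e4] at h5
    linarith
  have R5 : (1 + δ - ρ.re) / r ^ 2 ≤ 1 / 4 * (W / k ^ 2) := by
    have e1 : (1 + δ - ρ.re) / r ^ 2 = (1 + δ - ρ.re) * x ^ 2 := by rw [hr]; field_simp
    rw [e1]
    have h1 : (1 + δ - ρ.re) * x ^ 2 ≤ 121 / 560 / W * x ^ 2 := mul_le_mul_of_nonneg_right hd.le (by positivity)
    have h2 : 121 / 560 / W * x ^ 2 ≤ 1 / 4 * x := by
      rw [div_mul_eq_mul_div, div_le_iff₀ hW0]
      nlinarith
    linarith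
  have e6 : (E + Real.log (C1 / δ)) / r = E / r + Real.log (C1 / δ) / r := add_div _ _ _
  rw [e6, R1] at key
  have F : 2240 / 121 * W ≤ 37 / 2 * W + (S * (W / k ^ 2) + 10 * (W / k)) := by
    rw [hS]
    nlinarith
  have G1 : S * (W / k ^ 2) ≤ W / k := by
    have h1 : S ≤ k := by linarith
    have h2 : S * (W / k ^ 2) ≤ k * (W / k ^ 2) := mul_le_mul_of_nonneg_right h1 (by positivity)
    have e5 : k * (W / k ^ 2) = W / k := by field_simp
    linarith
  have G2 : W / k ≤ W / 2000 := div_le_div_of_nonneg_left hW0.le (by norm_num) (by linarith)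
  linarith

end Pool.Agent.H71.Lan
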