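import Pool.Agent.H6.Win.LocLog

/-!
# Landau's theorem for Beurling systems : Euler products and the inequality `3 + 4 cos + cos 2`

`BZ Z u κ` : `Z` is the zeta function of the generalized primes `exp (u j)`, continued to `re s > 1 / 2`, with residue
`κ` at its only pole `1`. For MP_5a4862_nt.
-/

set_option autoImplicit false

open Complex MeasureTheory Set Filter Topology

namespace Pool.Agent.H71.Lan

/-- the zeta function of a Beurling system, continued to `re s > 1 / 2` -/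
structure BZ (Z : ℂ → ℂ) (u : ℕ → ℝ) (κ : ℝ) : Prop where
  pos : ∀ j, 0 < u j
  prod : ∀ s : ℂ, 1 < s.re → HasProd (fun j => (1 - Complex.exp (-(s * u j)))⁻¹) (Z s)
  diff : DifferentiableOn ℂ Z {s : ℂ | 1 / 2 < s.re ∧ s ≠ 1}
  res : Tendsto (fun s => (s - 1) * Z s) (𝓝[≠] 1) (𝓝 (κ : ℂ))
  kne : κ ≠ 0

variable {Z : ℂ → ℂ} {u : ℕ → ℝ} {κ : ℝ}

lemma norm_e (u : ℝ) (s : ℂ) : ‖Complex.exp (-(s * u))‖ = Real.exp (-(s.re * u)) := by
  rw [Complex.norm_exp]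
  simp

lemma norm_e_lt {u : ℝ} (hu : 0 < u) {s : ℂ} (hs : 1 < s.re) : ‖Complex.exp (-(s * u))‖ < 1 := by
  rw [norm_e, Real.exp_lt_one_iff]
  nlinarith

lemma hasProd_norm (h : BZ Z u κ) {s : ℂ} (hs : 1 < s.re) :
    HasProd (fun j => ‖(1 - Complex.exp (-(s * u j)))⁻¹‖) ‖Z s‖ :=
  (h.prod s hs).map (normHom : ℂ →*₀ ℝ) continuous_norm

lemma one_sub_ne {z : ℂ} (hz : ‖z‖ < 1) : 1 - z ≠ 0 := by
  intro h
  rw [sub_eq_zero] at h
  rw [← h] at hz
  simp at hz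

/-- lower bound for the modulus of an Euler product -/
theorem one_le (h : BZ Z u κ) {s : ℂ} (hs : 1 < s.re) : 1 ≤ ‖Z s‖ * ‖Z (s.re : ℂ)‖ := by
  have h1 := hasProd_norm h hs
  have h2 := hasProd_norm h (s := (s.re : ℂ)) (by simpa using hs)
  have h3 := h1.mul h2
  refine ge_of_tendsto' h3 fun S => ?_
  refine Finset.prod_induction _ (fun x : ℝ => 1 ≤ x) (fun a b ha hb => one_le_mul_of_one_le_of_one_le ha hb)
    le_rfl fun j _ => ?_
  have ha := norm_e_lt (h.pos j) hs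
  have hb := norm_e_lt (h.pos j) (s := (s.re : ℂ)) (by simpa using hs)
  have e1 : Complex.exp (-(((s.re : ℝ) : ℂ) * u j)) = ((Real.exp (-(s.re * u j)) : ℝ) : ℂ) := by
    push_cast
    ring_nf
  have e2 : ‖Complex.exp (-(s * u j))‖ = Real.exp (-(s.re * u j)) := norm_e _ _
  set x := Real.exp (-(s.re * u j)) with hx
  have hx0 : 0 < x := Real.exp_pos _
  have hx1 : x < 1 := by rw [← e2]; exact ha
  rw [norm_inv, norm_inv, e1, ← mul_inv]
  have hp : 0 < ‖1 - Complex.exp (-(s * u j))‖ * ‖1 - ((x : ℝ) : ℂ)‖ :=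
    mul_pos (norm_pos_iff.2 (one_sub_ne ha)) (norm_pos_iff.2 (one_sub_ne (by
      rw [Complex.norm_real, Real.norm_eq_abs, abs_of_pos hx0]; exact hx1)))
  rw [one_le_inv₀ hp]
  have h4 : ‖1 - Complex.exp (-(s * u j))‖ ≤ 1 + x := by
    refine (norm_sub_le _ _).trans ?_
    rw [e2, norm_one]
  have h5 : ‖1 - ((x : ℝ) : ℂ)‖ = 1 - x := by
    rw [← Complex.ofReal_one, ← Complex.ofReal_sub, Complex.norm_real, Real.norm_eq_abs,
      abs_of_pos (by linarith)]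
  rw [h5]
  nlinarith

theorem ne_zero (h : BZ Z u κ) {s : ℂ} (hs : 1 < s.re) : Z s ≠ 0 := by
  intro h0
  have := one_le h hs
  rw [h0] at this
  simp at this
  linarith

/-- `- log ‖1 - z‖` as a power series -/
lemma hasSum_neg_log {z : ℂ} (hz : ‖z‖ < 1) :
    HasSum (fun n : ℕ => (z ^ n / n).re) (Real.log ‖(1 - z)⁻¹‖) := by
  have h1 := Complex.hasSum_re (Complex.hasSum_taylorSeries_neg_log hz)
  have h2 : (-Complex.log (1 - z)).re = Real.log ‖(1 - z)⁻¹‖ := by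
    rw [Complex.neg_re, Complex.log_re, norm_inv, Real.log_inv]
  rwa [h2] at h1

/-- the logarithm of one factor of the combination `3, 4, 1` -/
noncomputable def lf (v t σ : ℝ) : ℝ :=
  3 * Real.log ‖(1 - Complex.exp (-((σ : ℂ) * v)))⁻¹‖ +
  4 * Real.log ‖(1 - Complex.exp (-(((σ : ℂ) + t * I) * v)))⁻¹‖ +
  Real.log ‖(1 - Complex.exp (-(((σ : ℂ) + 2 * t * I) * v)))⁻¹‖

lemma re_lem (σ t v : ℝ) (n : ℕ) :
    ((Complex.exp (-(((σ : ℂ) + t * I) * v))) ^ n / n).re =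
      Real.exp (-(σ * v)) ^ n / n * Real.cos (n * (t * v)) := by
  rw [← Complex.exp_nat_mul]
  have e1 : (n : ℂ) * -(((σ : ℂ) + t * I) * v) = ((n * -(σ * v) : ℝ) : ℂ) + ((-(n * (t * v)) : ℝ) : ℂ) * I := by
    push_cast; ring
  rw [e1, Complex.exp_add, ← Complex.ofReal_exp]
  have e2 : ((Real.exp (n * -(σ * v)) : ℝ) : ℂ) * Complex.exp (((-(n * (t * v)) : ℝ) : ℂ) * I) / (n : ℂ) =
      ((Real.exp (n * -(σ * v)) / n : ℝ) : ℂ) * Complex.exp (((-(n * (t * v)) : ℝ) : ℂ) * I) := by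
    push_cast; ring
  rw [e2, Complex.re_ofReal_mul, Complex.exp_ofReal_mul_I_re, Real.cos_neg, Real.exp_nat_mul]

lemma lf_hasSum {v t σ : ℝ} (hv : 0 < v) (hσ : 1 < σ) :
    HasSum (fun n : ℕ => Real.exp (-(σ * v)) ^ n / n *
      (3 + 4 * Real.cos (n * (t * v)) + Real.cos (n * (2 * t * v)))) (lf v t σ) := by
  have n1 : ‖Complex.exp (-((σ : ℂ) * v))‖ < 1 := norm_e_lt hv (by simpa using hσ)
  have n2 : ‖Complex.exp (-(((σ : ℂ) + t * I) * v))‖ < 1 := norm_e_lt hv (by simpa using hσ)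
  have n3 : ‖Complex.exp (-(((σ : ℂ) + 2 * t * I) * v))‖ < 1 := norm_e_lt hv (by simpa using hσ)
  have h := (((hasSum_neg_log n1).mul_left 3).add ((hasSum_neg_log n2).mul_left 4)).add (hasSum_neg_log n3)
  have e : (fun n : ℕ => Real.exp (-(σ * v)) ^ n / n *
      (3 + 4 * Real.cos (n * (t * v)) + Real.cos (n * (2 * t * v)))) = fun n : ℕ =>
      3 * ((Complex.exp (-((σ : ℂ) * v))) ^ n / n).re +
      4 * ((Complex.exp (-(((σ : ℂ) + t * I) * v))) ^ n / n).re +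
      ((Complex.exp (-(((σ : ℂ) + 2 * t * I) * v))) ^ n / n).re := by
    funext n
    have r1 := re_lem σ 0 v n
    have r3 := re_lem σ (2 * t) v n
    have c1 : ((σ : ℂ) + ((0 : ℝ) : ℂ) * I) = (σ : ℂ) := by simp
    have c3 : ((σ : ℂ) + ((2 * t : ℝ) : ℂ) * I) = (σ : ℂ) + 2 * t * I := by push_cast; ring
    rw [c1] at r1
    rw [c3] at r3
    rw [r1, re_lem σ t v n, r3]
    simp only [zero_mul, mul_zero, Real.cos_zero]
    ring
  rw [e]
  exact h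

lemma comb_nonneg (n : ℕ) (t v : ℝ) :
    0 ≤ 3 + 4 * Real.cos (n * (t * v)) + Real.cos (n * (2 * t * v)) := by
  have e : (n : ℝ) * (2 * t * v) = 2 * (n * (t * v)) := by ring
  rw [e, Real.cos_two_mul]
  nlinarith [sq_nonneg (1 + Real.cos (n * (t * v)))]

lemma lf_anti {v t : ℝ} (hv : 0 < v) {σ1 σ2 : ℝ} (h1 : 1 < σ1) (h12 : σ1 ≤ σ2) :
    lf v t σ2 ≤ lf v t σ1 := by
  refine hasSum_le (fun n => ?_) (lf_hasSum hv (h1.trans_le h12)) (lf_hasSum hv h1)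
  refine mul_le_mul_of_nonneg_right ?_ (comb_nonneg n t v)
  refine div_le_div_of_nonneg_right ?_ (Nat.cast_nonneg n)
  refine pow_le_pow_left₀ (Real.exp_pos _).le (Real.exp_le_exp.2 ?_) n
  nlinarith

/-- the combination of the zeta function -/
noncomputable def CC (Z : ℂ → ℂ) (t σ : ℝ) : ℝ :=
  ‖Z (σ : ℂ)‖ ^ 3 * ‖Z ((σ : ℂ) + t * I)‖ ^ 4 * ‖Z ((σ : ℂ) + 2 * t * I)‖

theorem CC_anti (h : BZ Z u κ) (t : ℝ) {σ1 σ2 : ℝ} (h1 : 1 < σ1) (h12 : σ1 ≤ σ2) :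
    CC Z t σ2 ≤ CC Z t σ1 := by
  have key : ∀ σ : ℝ, 1 < σ → HasProd (fun j => Real.exp (lf (u j) t σ)) (CC Z t σ) := by
    intro σ hσ
    have p1 := hasProd_norm h (s := (σ : ℂ)) (by simpa using hσ)
    have p2 := hasProd_norm h (s := (σ : ℂ) + t * I) (by simpa using hσ)
    have p3 := hasProd_norm h (s := (σ : ℂ) + 2 * t * I) (by simpa using hσ)
    have p := (((p1.mul p1).mul p1).mul (((p2.mul p2).mul p2).mul p2)).mul p3
    have e : (fun j => Real.exp (lf (u j) t σ)) = fun j =>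
        ‖(1 - Complex.exp (-((σ : ℂ) * u j)))⁻¹‖ * ‖(1 - Complex.exp (-((σ : ℂ) * u j)))⁻¹‖ *
          ‖(1 - Complex.exp (-((σ : ℂ) * u j)))⁻¹‖ *
        (‖(1 - Complex.exp (-(((σ : ℂ) + t * I) * u j)))⁻¹‖ * ‖(1 - Complex.exp (-(((σ : ℂ) + t * I) * u j)))⁻¹‖ *
          ‖(1 - Complex.exp (-(((σ : ℂ) + t * I) * u j)))⁻¹‖ * ‖(1 - Complex.exp (-(((σ : ℂ) + t * I) * u j)))⁻¹‖) *
        ‖(1 - Complex.exp (-(((σ : ℂ) + 2 * t * I) * u j)))⁻¹‖ := by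
      funext j
      have q1 : 0 < ‖(1 - Complex.exp (-((σ : ℂ) * u j)))⁻¹‖ :=
        norm_pos_iff.2 (inv_ne_zero (one_sub_ne (norm_e_lt (h.pos j) (by simpa using hσ))))
      have q2 : 0 < ‖(1 - Complex.exp (-(((σ : ℂ) + t * I) * u j)))⁻¹‖ :=
        norm_pos_iff.2 (inv_ne_zero (one_sub_ne (norm_e_lt (h.pos j) (by simpa using hσ))))
      have q3 : 0 < ‖(1 - Complex.exp (-(((σ : ℂ) + 2 * t * I) * u j)))⁻¹‖ :=
        norm_pos_iff.2 (inv_ne_zero (one_sub_ne (norm_e_lt (h.pos j) (by simpa using hσ))))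
      unfold lf
      rw [Real.exp_add, Real.exp_add, Real.exp_log q3]
      have w1 : Real.exp (3 * Real.log ‖(1 - Complex.exp (-((σ : ℂ) * u j)))⁻¹‖) =
          ‖(1 - Complex.exp (-((σ : ℂ) * u j)))⁻¹‖ ^ 3 := by
        have := Real.exp_nat_mul (Real.log ‖(1 - Complex.exp (-((σ : ℂ) * u j)))⁻¹‖) 3
        rw [Real.exp_log q1] at this
        exact_mod_cast this
      have w2 : Real.exp (4 * Real.log ‖(1 - Complex.exp (-(((σ : ℂ) + t * I) * u j)))⁻¹‖) =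
          ‖(1 - Complex.exp (-(((σ : ℂ) + t * I) * u j)))⁻¹‖ ^ 4 := by
        have := Real.exp_nat_mul (Real.log ‖(1 - Complex.exp (-(((σ : ℂ) + t * I) * u j)))⁻¹‖) 4
        rw [Real.exp_log q2] at this
        exact_mod_cast this
      rw [w1, w2]
      ring
    rw [e]
    have e2 : CC Z t σ = ‖Z (σ : ℂ)‖ * ‖Z (σ : ℂ)‖ * ‖Z (σ : ℂ)‖ *
        (‖Z ((σ : ℂ) + t * I)‖ * ‖Z ((σ : ℂ) + t * I)‖ * ‖Z ((σ : ℂ) + t * I)‖ * ‖Z ((σ : ℂ) + t * I)‖) *
        ‖Z ((σ : ℂ) + 2 * t * I)‖ := by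
      unfold CC; ring
    rw [e2]
    exact p
  refine le_of_tendsto_of_tendsto' (key σ2 (h1.trans_le h12)) (key σ1 h1) fun S => ?_
  exact Finset.prod_le_prod (fun j _ => (Real.exp_pos _).le) fun j _ =>
    Real.exp_le_exp.2 (lf_anti (h.pos j) h1 h12)

/-- derivative of `log ‖f‖` along a horizontal line -/
theorem hasDerivAt_log_norm {f : ℂ → ℂ} {σ : ℝ} {τ : ℂ} (hf : DifferentiableAt ℂ f ((σ : ℂ) + τ))
    (h0 : f ((σ : ℂ) + τ) ≠ 0) :
    HasDerivAt (fun x : ℝ => Real.log ‖f ((x : ℂ) + τ)‖)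
      (deriv f ((σ : ℂ) + τ) / f ((σ : ℂ) + τ)).re σ := by
  have h1 : HasDerivAt (fun z : ℂ => f (z + τ)) (deriv f ((σ : ℂ) + τ)) (σ : ℂ) :=
    HasDerivAt.comp_add_const (σ : ℂ) τ hf.hasDerivAt
  have h2 : HasDerivAt (fun x : ℝ => f ((x : ℂ) + τ)) (deriv f ((σ : ℂ) + τ)) σ := h1.comp_ofReal
  have h3 := h2.norm_sq
  have hn : (0 : ℝ) < ‖f ((σ : ℂ) + τ)‖ := norm_pos_iff.2 h0
  have h4 := (h3.log (by positivity)).div_const 2
  have e1 : (fun x : ℝ => Real.log ‖f ((x : ℂ) + τ)‖) = fun x : ℝ => Real.log (‖f ((x : ℂ) + τ)‖ ^ 2) / 2 := by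
    funext x
    rw [Real.log_pow]
    push_cast
    ring
  rw [e1]
  refine h4.congr_deriv ?_
  rw [Complex.inner]
  set a := f ((σ : ℂ) + τ) with ha
  set b := deriv f ((σ : ℂ) + τ) with hb
  have e2 : ‖a‖ ^ 2 = Complex.normSq a := (Complex.normSq_eq_norm_sq a).symm
  rw [e2, div_eq_mul_inv b a, Complex.inv_def]
  have hq : 0 < Complex.normSq a := Complex.normSq_pos.2 h0
  have e3 : (b * ((starRingEnd ℂ) a * ((Complex.normSq a)⁻¹ : ℝ))).re =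
      (Complex.normSq a)⁻¹ * ((starRingEnd ℂ) a * b).re := by
    rw [← mul_assoc, Complex.re_mul_ofReal, mul_comm b, mul_comm]
  rw [e3]
  field_simp

lemma mem_dom {s : ℂ} (hs : 1 < s.re) : s ∈ {s : ℂ | 1 / 2 < s.re ∧ s ≠ 1} := by
  refine ⟨by linarith, fun h => ?_⟩
  rw [h] at hs
  simp at hs

lemma isOpen_dom : IsOpen {s : ℂ | 1 / 2 < s.re ∧ s ≠ 1} :=
  (isOpen_lt continuous_const Complex.continuous_re).inter isOpen_ne

lemma diffAt (h : BZ Z u κ) {s : ℂ} (h1 : 1 / 2 < s.re) (h2 : s ≠ 1) : DifferentiableAt ℂ Z s :=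
  h.diff.differentiableAt (isOpen_dom.mem_nhds ⟨h1, h2⟩)

/-- the inequality of de la Vallee Poussin for the logarithmic derivative -/
theorem three_four_one (h : BZ Z u κ) (t : ℝ) {σ : ℝ} (hσ : 1 < σ) :
    3 * (deriv Z (σ : ℂ) / Z (σ : ℂ)).re + 4 * (deriv Z ((σ : ℂ) + t * I) / Z ((σ : ℂ) + t * I)).re +
      (deriv Z ((σ : ℂ) + 2 * t * I) / Z ((σ : ℂ) + 2 * t * I)).re ≤ 0 := by
  have d : ∀ τ : ℝ, HasDerivAt (fun x : ℝ => Real.log ‖Z ((x : ℂ) + τ * I)‖)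
      (deriv Z ((σ : ℂ) + τ * I) / Z ((σ : ℂ) + τ * I)).re σ := by
    intro τ
    have hre : 1 < ((σ : ℂ) + τ * I).re := by simpa using hσ
    exact hasDerivAt_log_norm (diffAt h (mem_dom hre).1 (mem_dom hre).2) (ne_zero h hre)
  have d1 := d 0
  have d2 := d t
  have d3 := d (2 * t)
  simp only [Complex.ofReal_zero, zero_mul, add_zero] at d1
  have c3 : ∀ x : ℂ, x + ((2 * t : ℝ) : ℂ) * I = x + 2 * t * I := fun x => by push_cast; ring
  simp only [c3] at d3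
  have D := ((d1.const_mul 3).add (d2.const_mul 4)).add d3
  have hanti : ∀ x y : ℝ, 1 < x → x ≤ y →
      3 * Real.log ‖Z (y : ℂ)‖ + 4 * Real.log ‖Z ((y : ℂ) + t * I)‖ + Real.log ‖Z ((y : ℂ) + 2 * t * I)‖ ≤
      3 * Real.log ‖Z (x : ℂ)‖ + 4 * Real.log ‖Z ((x : ℂ) + t * I)‖ + Real.log ‖Z ((x : ℂ) + 2 * t * I)‖ := by
    have hl : ∀ x : ℝ, 1 < x → 0 < CC Z t x ∧ Real.log (CC Z t x) =
        3 * Real.log ‖Z (x : ℂ)‖ + 4 * Real.log ‖Z ((x : ℂ) + t * I)‖ + Real.log ‖Z ((x : ℂ) + 2 * t * I)‖ := by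
      intro x hx
      have n1 : ‖Z (x : ℂ)‖ ≠ 0 := norm_ne_zero_iff.2 (ne_zero h (by simpa using hx))
      have n2 : ‖Z ((x : ℂ) + t * I)‖ ≠ 0 := norm_ne_zero_iff.2 (ne_zero h (by simpa using hx))
      have n3 : ‖Z ((x : ℂ) + 2 * t * I)‖ ≠ 0 := norm_ne_zero_iff.2 (ne_zero h (by simpa using hx))
      refine ⟨?_, ?_⟩
      · unfold CC
        have := norm_nonneg (Z (x : ℂ))
        positivity
      · unfold CC
        rw [Real.log_mul (by positivity) n3, Real.log_mul (by positivity) (by positivity), Real.log_pow,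
          Real.log_pow]
        push_cast
        ring
    intro x y hx hxy
    rw [← (hl x hx).2, ← (hl y (hx.trans_le hxy)).2]
    exact Real.log_le_log (hl y (hx.trans_le hxy)).1 (CC_anti h t hx hxy)
  have hs := (hasDerivAt_iff_tendsto_slope.1 D).mono_left (nhdsWithin_mono σ (s := Ioi σ) (fun y hy => ne_of_gt hy))
  refine le_of_tendsto hs ?_
  filter_upwards [self_mem_nhdsWithin] with y hy
  have hy' : σ < y := hy
  rw [slope_def_field]
  refine div_nonpos_of_nonpos_of_nonneg ?_ (by linarith)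
  have := hanti σ y hσ hy'.le
  simp only [Pi.add_apply]
  linarith

end Pool.Agent.H71.Lan
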