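import Pool.Agent.H71.Lan.Basic

/-!
# Landau's theorem for Beurling systems : a half disc inequality with explicit constants

`half_one`, `half_zero` : if `f` is analytic near the closed unit disc, without zeros of nonnegative real part, and
`‖f (-z)‖ ≤ exp (m re z + E) ‖f (conj z)‖` for `‖z‖ = 1`, `re z ≥ 0`, then `- re (f' / f) (0) ≤ m / 2 + E`, and
`- re (f' / f) (0) ≤ m / 2 + E - (1 / x - x)` if moreover `f (-x) = 0` for some `0 < x < 1`. The proof is the maximum principle for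
`f (-z) / conj (f (conj z)) * exp (- ((m + 2 E) z - E z ^ 2))` on the right half of the disc. For MP_5a4862_nt.
-/

set_option autoImplicit false

open Complex Set Filter Topology Metric

namespace Pool.Agent.H71.Lan

/-- the right half of the unit disc -/
def hd : Set ℂ := ball (0 : ℂ) 1 ∩ {z : ℂ | 0 < z.re}

lemma isOpen_hd : IsOpen hd := isOpen_ball.inter (isOpen_lt continuous_const Complex.continuous_re)

lemma hd_closure : closure hd ⊆ closedBall (0 : ℂ) 1 ∩ {z : ℂ | 0 ≤ z.re} := by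
  refine closure_minimal ?_ (isClosed_closedBall.inter (isClosed_le continuous_const Complex.continuous_re))
  rintro z ⟨h1, h2⟩
  have h3 : 0 < z.re := h2
  exact ⟨ball_subset_closedBall h1, h3.le⟩

lemma hd_frontier {z : ℂ} (hz : z ∈ frontier hd) : ‖z‖ ≤ 1 ∧ 0 ≤ z.re ∧ (‖z‖ = 1 ∨ z.re = 0) := by
  obtain ⟨h1, h2⟩ := hd_closure hz.1
  rw [mem_closedBall_zero_iff] at h1
  refine ⟨h1, h2, ?_⟩
  have h3 : z ∉ hd := by
    have := hz.2
    rwa [isOpen_hd.interior_eq] at this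
  by_contra hcon
  rw [not_or] at hcon
  refine h3 ⟨?_, lt_of_le_of_ne h2 (Ne.symm hcon.2)⟩
  rw [mem_ball_zero_iff]
  exact lt_of_le_of_ne h1 hcon.1

/-- the comparison of `g` with the conjugate of `f` -/
lemma half_gen {f g : ℂ → ℂ} {m E : ℝ} (hE : 0 ≤ E)
    (hf : ∀ z : ℂ, ‖z‖ ≤ 1 → DifferentiableAt ℂ f z)
    (hz : ∀ z : ℂ, ‖z‖ ≤ 1 → f z = 0 → z.re < 0)
    (hg : ∀ z : ℂ, ‖z‖ ≤ 1 → 0 ≤ z.re → DifferentiableAt ℂ g z)
    (hb : ∀ z : ℂ, ‖z‖ = 1 → 0 ≤ z.re → ‖g z‖ ≤ Real.exp (m * z.re + E) * ‖f (starRingEnd ℂ z)‖)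
    (hi : ∀ z : ℂ, ‖z‖ ≤ 1 → z.re = 0 → ‖g z‖ ≤ ‖f (starRingEnd ℂ z)‖)
    {x : ℝ} (hx0 : 0 < x) (hx1 : x < 1) :
    ‖g x‖ ≤ Real.exp ((m + 2 * E) * x - E * x ^ 2) * ‖f x‖ := by
  set fc : ℂ → ℂ := fun z => starRingEnd ℂ (f (starRingEnd ℂ z)) with hfc
  have hfcd : ∀ z : ℂ, ‖z‖ ≤ 1 → DifferentiableAt ℂ fc z := by
    intro z h1
    have h2 : DifferentiableAt ℂ f (starRingEnd ℂ z) := hf _ (by rwa [RCLike.norm_conj])
    have h4 := h2.star_star
    have e : star (starRingEnd ℂ z) = z := Complex.conj_conj z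
    rw [e] at h4
    exact h4
  have hne : ∀ z : ℂ, ‖z‖ ≤ 1 → 0 ≤ z.re → f (starRingEnd ℂ z) ≠ 0 := by
    intro z h1 h2 h3
    have := hz _ (by rwa [RCLike.norm_conj]) h3
    rw [Complex.conj_re] at this
    linarith
  have hfcn : ∀ z : ℂ, ‖fc z‖ = ‖f (starRingEnd ℂ z)‖ := fun z => RCLike.norm_conj _
  set F : ℂ → ℂ := fun z => g z / fc z * Complex.exp (-(((m + 2 * E : ℝ) : ℂ) * z - (E : ℂ) * z ^ 2)) with hF
  have hFd : ∀ z : ℂ, ‖z‖ ≤ 1 → 0 ≤ z.re → DifferentiableAt ℂ F z := by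
    intro z h1 h2
    have h3 : fc z ≠ 0 := by
      rw [← norm_pos_iff, hfcn]
      exact norm_pos_iff.2 (hne z h1 h2)
    have h4 := (hg z h1 h2).div (hfcd z h1) h3
    exact h4.mul (by fun_prop)
  have hFn : ∀ z : ℂ, ‖F z‖ = ‖g z‖ / ‖f (starRingEnd ℂ z)‖ *
      Real.exp (-((m + 2 * E) * z.re - E * (z.re ^ 2 - z.im ^ 2))) := by
    intro z
    rw [hF]
    simp only
    rw [norm_mul, norm_div, hfcn, Complex.norm_exp]
    congr 2
    have e1 : (z ^ 2).re = z.re ^ 2 - z.im ^ 2 := by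
      rw [pow_two, Complex.mul_re]; ring
    rw [Complex.neg_re, Complex.sub_re, Complex.re_ofReal_mul, Complex.re_ofReal_mul, e1]
  have hmax : ∀ z ∈ closure hd, ‖F z‖ ≤ 1 := by
    intro z hzc
    have hdc : DiffContOnCl ℂ F hd := by
      apply DifferentiableOn.diffContOnCl
      intro w hw
      obtain ⟨h1, h2⟩ := hd_closure hw
      rw [mem_closedBall_zero_iff] at h1
      exact (hFd w h1 h2).differentiableWithinAt
    refine Complex.norm_le_of_forall_mem_frontier_norm_le (isBounded_ball.subset inter_subset_left) hdc ?_ hzc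
    intro w hw
    obtain ⟨h1, h2, h3⟩ := hd_frontier hw
    have hp : 0 < ‖f (starRingEnd ℂ w)‖ := norm_pos_iff.2 (hne w h1 h2)
    rw [hFn]
    rcases h3 with h3 | h3
    · have h4 := hb w h3 h2
      have h5 : ‖g w‖ / ‖f (starRingEnd ℂ w)‖ ≤ Real.exp (m * w.re + E) := by
        rw [div_le_iff₀ hp]; exact h4
      have h6 : w.re ^ 2 + w.im ^ 2 = 1 := by
        have := Complex.normSq_eq_norm_sq w
        rw [Complex.normSq_apply, h3] at this
        nlinarith
      have h7 : w.re ≤ 1 := by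
        have := (Complex.re_le_norm w)
        rwa [h3] at this
      calc ‖g w‖ / ‖f (starRingEnd ℂ w)‖ * Real.exp (-((m + 2 * E) * w.re - E * (w.re ^ 2 - w.im ^ 2)))
          ≤ Real.exp (m * w.re + E) * Real.exp (-((m + 2 * E) * w.re - E * (w.re ^ 2 - w.im ^ 2))) :=
            mul_le_mul_of_nonneg_right h5 (Real.exp_pos _).le
        _ = Real.exp (m * w.re + E + -((m + 2 * E) * w.re - E * (w.re ^ 2 - w.im ^ 2))) := (Real.exp_add _ _).symm
        _ ≤ 1 := by
            rw [Real.exp_le_one_iff]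
            have h8 : w.im ^ 2 = 1 - w.re ^ 2 := by linarith
            rw [h8]
            have h9 : 0 ≤ E * (w.re * (1 - w.re)) := mul_nonneg hE (mul_nonneg h2 (by linarith))
            nlinarith
    · have h4 := hi w h1 h3
      have h5 : ‖g w‖ / ‖f (starRingEnd ℂ w)‖ ≤ 1 := by
        rw [div_le_one hp]; exact h4
      rw [h3]
      have h6 : Real.exp (-((m + 2 * E) * 0 - E * ((0 : ℝ) ^ 2 - w.im ^ 2))) ≤ 1 := by
        rw [Real.exp_le_one_iff]
        nlinarith [mul_nonneg hE (sq_nonneg w.im)]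
      exact mul_le_one₀ h5 (Real.exp_pos _).le h6
  have hxm : (x : ℂ) ∈ closure hd := by
    refine subset_closure ⟨?_, ?_⟩
    · rw [mem_ball_zero_iff, Complex.norm_real, Real.norm_eq_abs, abs_of_pos hx0]
      exact hx1
    · simpa using hx0
  have h1 := hmax _ hxm
  rw [hFn, Complex.conj_ofReal, Complex.ofReal_re, Complex.ofReal_im, Real.exp_neg] at h1
  have hp : 0 < ‖f (x : ℂ)‖ := by
    have := hne (x : ℂ) (by rw [Complex.norm_real, Real.norm_eq_abs, abs_of_pos hx0]; exact hx1.le)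
      (by simpa using hx0.le)
    rw [Complex.conj_ofReal] at this
    exact norm_pos_iff.2 this
  have he : (m + 2 * E) * x - E * (x ^ 2 - 0 ^ 2) = (m + 2 * E) * x - E * x ^ 2 := by ring
  rw [he, ← div_eq_mul_inv, div_le_one (Real.exp_pos _), div_le_iff₀ hp] at h1
  exact h1

/-- the derivative at the centre -/
lemma half_der {f g : ℂ → ℂ} {m E : ℝ} (hf : DifferentiableAt ℂ f 0) (hg : DifferentiableAt ℂ g 0)
    (hf0 : f 0 ≠ 0) (hfg : ‖g 0‖ = ‖f 0‖)
    (hb : ∀ x : ℝ, 0 < x → x < 1 → g x ≠ 0 → f x ≠ 0 → ‖g x‖ ≤ Real.exp ((m + 2 * E) * x - E * x ^ 2) * ‖f x‖) :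
    (deriv g 0 / g 0).re - (deriv f 0 / f 0).re ≤ m + 2 * E := by
  have hg0 : g 0 ≠ 0 := by
    rw [← norm_pos_iff, hfg]
    exact norm_pos_iff.2 hf0
  have d1 := hasDerivAt_log_norm (f := f) (σ := 0) (τ := 0) (by simpa using hf) (by simpa using hf0)
  have d2 := hasDerivAt_log_norm (f := g) (σ := 0) (τ := 0) (by simpa using hg) (by simpa using hg0)
  simp only [Complex.ofReal_zero, add_zero] at d1 d2
  have d3 : HasDerivAt (fun x : ℝ => (m + 2 * E) * x - E * x ^ 2) (m + 2 * E) 0 := by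
    have h1 := ((hasDerivAt_id (0 : ℝ)).const_mul (m + 2 * E)).sub (((hasDerivAt_id (0 : ℝ)).pow 2).const_mul E)
    refine h1.congr_deriv ?_
    simp
  have D := (d2.sub d1).sub d3
  have hs := (hasDerivAt_iff_tendsto_slope.1 D).mono_left
    (nhdsWithin_mono (0 : ℝ) (s := Ioi 0) (fun y hy => ne_of_gt hy))
  have key : (deriv g 0 / g 0).re - (deriv f 0 / f 0).re - (m + 2 * E) ≤ 0 := by
    refine le_of_tendsto hs ?_
    have c1 : ContinuousAt (fun x : ℝ => f x) 0 :=
      ContinuousAt.comp (f := fun x : ℝ => (x : ℂ)) (by simpa using hf.continuousAt)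
        Complex.continuous_ofReal.continuousAt
    have c2 : ContinuousAt (fun x : ℝ => g x) 0 :=
      ContinuousAt.comp (f := fun x : ℝ => (x : ℂ)) (by simpa using hg.continuousAt)
        Complex.continuous_ofReal.continuousAt
    have n1 : ∀ᶠ x : ℝ in 𝓝 0, f x ≠ 0 := c1.eventually_ne (by simpa using hf0)
    have n2 : ∀ᶠ x : ℝ in 𝓝 0, g x ≠ 0 := c2.eventually_ne (by simpa using hg0)
    have n3 : ∀ᶠ x : ℝ in 𝓝 0, x < 1 := eventually_lt_nhds one_pos
    filter_upwards [self_mem_nhdsWithin, nhdsWithin_le_nhds n1, nhdsWithin_le_nhds n2, nhdsWithin_le_nhds n3]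
      with x hx a1 a2 a3
    have hx0 : 0 < x := hx
    have h1 := hb x hx0 a3 a2 a1
    have h2 := Real.log_le_log (norm_pos_iff.2 a2) h1
    rw [Real.log_mul (Real.exp_pos _).ne' (norm_pos_iff.2 a1).ne', Real.log_exp] at h2
    rw [slope_def_field]
    refine div_nonpos_of_nonpos_of_nonneg ?_ (by linarith)
    simp only [Pi.sub_apply, Complex.ofReal_zero, hfg]
    have e0 : (m + 2 * E) * (0 : ℝ) - E * 0 ^ 2 = 0 := by ring
    rw [e0]
    linarith
  linarith

theorem half_one {f : ℂ → ℂ} {m E : ℝ} (hE : 0 ≤ E) (hf : ∀ z : ℂ, ‖z‖ ≤ 1 → DifferentiableAt ℂ f z)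
    (hz : ∀ z : ℂ, ‖z‖ ≤ 1 → f z = 0 → z.re < 0)
    (hb : ∀ z : ℂ, ‖z‖ = 1 → 0 ≤ z.re → ‖f (-z)‖ ≤ Real.exp (m * z.re + E) * ‖f (starRingEnd ℂ z)‖) :
    -(deriv f 0 / f 0).re ≤ m / 2 + E := by
  have hf0 : f 0 ≠ 0 := fun h => by
    have := hz 0 (by simp) h
    simp at this
  have hg : ∀ z : ℂ, ‖z‖ ≤ 1 → DifferentiableAt ℂ (fun z => f (-z)) z := fun z h =>
    (hf (-z) (by rwa [norm_neg])).comp z differentiable_neg.differentiableAt
  have h1 := half_der (f := f) (g := fun z => f (-z)) (m := m) (E := E) (hf 0 (by simp)) (hg 0 (by simp)) hf0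
    (by simp) fun x x0 x1 _ _ => half_gen hE hf hz (fun z h _ => hg z h) hb (fun z _ h2 => by
      have : -z = starRingEnd ℂ z := by
        apply Complex.ext <;> simp [h2]
      simp only [this]
      exact le_rfl) x0 x1
  have h2 : deriv (fun z => f (-z)) 0 = -deriv f 0 := by
    rw [deriv_comp_neg, neg_zero]
  simp only [h2, neg_zero, neg_div, Complex.neg_re] at h1
  linarith

lemma norm_sq' (z : ℂ) : ‖z‖ ^ 2 = z.re ^ 2 + z.im ^ 2 := by
  rw [← Complex.normSq_eq_norm_sq, Complex.normSq_apply]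
  ring

theorem half_zero {f : ℂ → ℂ} {m E : ℝ} (hE : 0 ≤ E) (hf : ∀ z : ℂ, ‖z‖ ≤ 1 → AnalyticAt ℂ f z)
    (hz : ∀ z : ℂ, ‖z‖ ≤ 1 → f z = 0 → z.re < 0)
    (hb : ∀ z : ℂ, ‖z‖ = 1 → 0 ≤ z.re → ‖f (-z)‖ ≤ Real.exp (m * z.re + E) * ‖f (starRingEnd ℂ z)‖)
    {x : ℝ} (hx0 : 0 < x) (hx1 : x < 1) (hfx : f (-(x : ℂ)) = 0) :
    -(deriv f 0 / f 0).re ≤ m / 2 + E - (1 / x - x) := by
  have hf0 : f 0 ≠ 0 := fun h => by
    have := hz 0 (by simp) h
    simp at this
  have hxC : (x : ℂ) ≠ 0 := by exact_mod_cast hx0.ne'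
  have hxn : ‖(x : ℂ)‖ = x := by rw [Complex.norm_real, Real.norm_eq_abs, abs_of_pos hx0]
  -- the quotient of `f` by `z + x`
  set q : ℂ → ℂ := dslope f (-(x : ℂ)) with hq
  have hfq : ∀ z, f z = (z + x) * q z := by
    intro z
    have := sub_smul_dslope f (-(x : ℂ)) z
    rw [hfx, sub_zero, sub_neg_eq_add, smul_eq_mul] at this
    exact this.symm
  have hqd : ∀ z : ℂ, ‖z‖ ≤ 1 → DifferentiableAt ℂ q z := by
    intro z hz1
    by_cases h1 : z = -(x : ℂ)
    · have h2 : AnalyticAt ℂ f (-(x : ℂ)) := hf _ (by rw [norm_neg, hxn]; exact hx1.le)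
      obtain ⟨p, hp⟩ := h2
      have h3 := hp.has_fpower_series_dslope_fslope
      rw [h1]
      exact h3.analyticAt.differentiableAt
    · exact (differentiableAt_dslope_of_ne h1).2 (hf z hz1).differentiableAt
  -- the comparison function
  set N : ℂ → ℂ := fun z => (-z - x) * (1 - x * z) / (1 + x * z) with hN
  set g : ℂ → ℂ := fun z => q (-z) * N z with hg
  have hden : ∀ z : ℂ, ‖z‖ ≤ 1 → (1 : ℂ) + x * z ≠ 0 := by
    intro z h1 h2
    have h3 : ‖(x : ℂ) * z‖ < 1 := by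
      rw [norm_mul, hxn]
      nlinarith [norm_nonneg z]
    have h4 : (x : ℂ) * z = -1 := by linear_combination h2
    rw [h4] at h3
    simp at h3
  have hgd : ∀ z : ℂ, ‖z‖ ≤ 1 → DifferentiableAt ℂ g z := by
    intro z h1
    have h2 : DifferentiableAt ℂ (fun z => q (-z)) z :=
      (hqd (-z) (by rwa [norm_neg])).comp z differentiable_neg.differentiableAt
    have h3 : DifferentiableAt ℂ N z := by
      refine DifferentiableAt.div ?_ ?_ (hden z h1)
      · fun_prop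
      · fun_prop
    exact h2.mul h3
  -- the modulus on the boundary
  have hmod : ∀ z : ℂ, ‖z‖ ≤ 1 → (‖z‖ = 1 ∨ z.re = 0) → ‖g z‖ = ‖f (-z)‖ := by
    intro z h1 h2
    rw [hfq (-z), hg]
    simp only
    rw [norm_mul, norm_mul, mul_comm]
    congr 1
    rw [hN]
    simp only
    have hd0 : 0 < ‖1 + (x : ℂ) * z‖ := norm_pos_iff.2 (hden z h1)
    rw [norm_div, norm_mul, div_eq_iff hd0.ne']
    have e1 : ‖-z - (x : ℂ)‖ = ‖z + x‖ := by rw [← norm_neg]; congr 1; ring
    have e2 : ‖-z + (x : ℂ)‖ = ‖z - x‖ := by rw [← norm_neg]; congr 1; ring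
    rw [e1, e2]
    have hsq : ∀ a b : ℂ, ‖a‖ ^ 2 = ‖b‖ ^ 2 → ‖a‖ = ‖b‖ := fun a b h =>
      (pow_left_inj₀ (norm_nonneg _) (norm_nonneg _) two_ne_zero).1 h
    rcases h2 with h2 | h2
    · have h3 : z.re ^ 2 + z.im ^ 2 = 1 := by
        rw [← norm_sq', h2]; norm_num
      have h4 : ‖z + (x : ℂ)‖ = ‖1 + (x : ℂ) * z‖ := by
        apply hsq
        rw [norm_sq', norm_sq']
        simp only [Complex.add_re, Complex.add_im, Complex.ofReal_re, Complex.ofReal_im, Complex.one_re,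
          Complex.one_im, Complex.mul_re, Complex.mul_im]
        linear_combination (1 - x ^ 2) * h3
      have h5 : ‖z - (x : ℂ)‖ = ‖1 - (x : ℂ) * z‖ := by
        apply hsq
        rw [norm_sq', norm_sq']
        simp only [Complex.sub_re, Complex.sub_im, Complex.ofReal_re, Complex.ofReal_im, Complex.one_re,
          Complex.one_im, Complex.mul_re, Complex.mul_im]
        linear_combination (1 - x ^ 2) * h3
      rw [h4, h5, mul_comm]
    · have h4 : ‖z + (x : ℂ)‖ = ‖z - (x : ℂ)‖ := by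
        apply hsq
        rw [norm_sq', norm_sq']
        simp only [Complex.add_re, Complex.add_im, Complex.sub_re, Complex.sub_im, Complex.ofReal_re,
          Complex.ofReal_im, h2]
        ring
      have h5 : ‖1 - (x : ℂ) * z‖ = ‖1 + (x : ℂ) * z‖ := by
        apply hsq
        rw [norm_sq', norm_sq']
        simp only [Complex.add_re, Complex.add_im, Complex.sub_re, Complex.sub_im, Complex.ofReal_re,
          Complex.ofReal_im, Complex.one_re, Complex.one_im, Complex.mul_re, Complex.mul_im, h2]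
        ring
      rw [h4, h5]
  have hgen : ∀ y : ℝ, 0 < y → y < 1 → ‖g y‖ ≤ Real.exp ((m + 2 * E) * y - E * y ^ 2) * ‖f y‖ := by
    intro y y0 y1
    refine half_gen hE (fun z h => (hf z h).differentiableAt) hz (fun z h _ => hgd z h) ?_ ?_ y0 y1
    · intro z h1 h2
      rw [hmod z h1.le (Or.inl h1)]
      exact hb z h1 h2
    · intro z h1 h2
      rw [hmod z h1 (Or.inr h2)]
      have : -z = starRingEnd ℂ z := by
        apply Complex.ext <;> simp [h2]
      rw [this]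
  have hg0 : ‖g 0‖ = ‖f 0‖ := by
    have := hmod 0 (by simp) (Or.inr (by simp))
    rwa [neg_zero] at this
  have h1 := half_der (f := f) (g := g) (m := m) (E := E) (hf 0 (by simp)).differentiableAt (hgd 0 (by simp)) hf0 hg0
    fun y y0 y1 _ _ => hgen y y0 y1
  -- the logarithmic derivatives at `0`
  have hq0 : q 0 ≠ 0 := by
    intro h
    apply hf0
    rw [hfq, h, mul_zero]
  have dq : HasDerivAt q (deriv q 0) 0 := (hqd 0 (by simp)).hasDerivAt
  have df : deriv f 0 = q 0 + x * deriv q 0 := by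
    have h2 : HasDerivAt (fun z : ℂ => (z + x) * q z) (1 * q 0 + (0 + x) * deriv q 0) 0 :=
      ((hasDerivAt_id (0 : ℂ)).add_const (x : ℂ)).mul dq
    have h3 : f = fun z : ℂ => (z + x) * q z := funext hfq
    rw [h3, h2.deriv]
    simp
  have dN : HasDerivAt N (-1 + 2 * x ^ 2 : ℂ) 0 := by
    have a1 : HasDerivAt (fun z : ℂ => -z - x) (-1) 0 := ((hasDerivAt_id (0 : ℂ)).neg).sub_const _
    have a2 : HasDerivAt (fun z : ℂ => 1 - x * z) (-(x : ℂ)) 0 := by
      have := ((hasDerivAt_id (0 : ℂ)).const_mul (x : ℂ)).const_sub 1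
      simpa using this
    have a3 : HasDerivAt (fun z : ℂ => 1 + x * z) (x : ℂ) 0 := by
      have := ((hasDerivAt_id (0 : ℂ)).const_mul (x : ℂ)).const_add 1
      simpa using this
    have a4 := (a1.fun_mul a2).fun_div a3 (by simp)
    refine a4.congr_deriv ?_
    simp only [mul_zero, add_zero, sub_zero, neg_zero, zero_sub]
    ring
  have dqn : HasDerivAt (fun z : ℂ => q (-z)) (-deriv q 0) 0 := by
    have h2 : HasDerivAt q (deriv q 0) (-(0 : ℂ)) := by rwa [neg_zero]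
    have h3 := h2.comp (0 : ℂ) (hasDerivAt_neg (0 : ℂ))
    exact h3.congr_deriv (by ring)
  have dg : deriv g 0 = -deriv q 0 * (-x) + q 0 * (-1 + 2 * x ^ 2) := by
    have h2 := dqn.mul dN
    have h3 : N 0 = -x := by rw [hN]; simp
    rw [hg]
    refine h2.deriv.trans ?_
    rw [h3, neg_zero]
  have g0 : g 0 = -(x * q 0) := by
    rw [hg, hN]; simp; ring
  have f0 : f 0 = x * q 0 := by rw [hfq]; simp
  have e1 : deriv g 0 / g 0 = -(deriv f 0 / f 0) + ((2 * (1 / x - x) : ℝ) : ℂ) := by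
    rw [dg, g0, f0, df]
    push_cast
    field_simp
    ring
  rw [e1, Complex.add_re, Complex.neg_re, Complex.ofReal_re] at h1
  linarith

end Pool.Agent.H71.Lan
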