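import Pool.Agent.H71.Lan.Pole

/-!
# Landau's theorem for Beurling systems : the local form

`lan` : the bound for the real part of a logarithmic derivative. `local_free` : if `‖Z‖ ≤ exp M` at distance `r` to the left of
`re s = 1`, near the ordinates `γ` and `2 γ`, then a zero `β + i γ` has `1 - β ≥ c r / (M + log (1 / r) + 1)`.
-/

set_option autoImplicit false

open Complex MeasureTheory Set Filter Topology Metric

namespace Pool.Agent.H71.Lan

variable {Z : ℂ → ℂ} {u : ℕ → ℝ} {κ : ℝ}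

theorem lan : ∃ C : ℝ, 0 < C ∧ ∀ (f : ℂ → ℂ) (Λ : ℝ), 0 < Λ → AnalyticOnNhd ℂ f (closedBall 0 1) → f 0 ≠ 0 →
    (∀ z ∈ closedBall (0 : ℂ) 1, ‖f z‖ ≤ Real.exp Λ * ‖f 0‖) →
    (∀ z ∈ closedBall (0 : ℂ) 1, f z = 0 → z.re < 0) →
    -(deriv f 0 / f 0).re ≤ C * Λ ∧
    ∀ x : ℝ, 0 < x → x ≤ 1 / 2 → f (-(x : ℂ)) = 0 → -(deriv f 0 / f 0).re ≤ C * Λ - 1 / x := by
  obtain ⟨C, hC, hl⟩ := Pool.Agent.H6.loc_log (R0 := 1 / 4) (R1 := 1 / 2) (R2 := 1) (by norm_num) (by norm_num)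
    (by norm_num)
  refine ⟨C, hC, fun f Λ hΛ hf h0 hb hz => ?_⟩
  obtain ⟨S, hS, hm, -, hd⟩ := hl f 0 Λ hΛ hf h0 hb
  have h1 := hd 0 (by simp) h0
  have h2 := (Complex.abs_re_le_norm _).trans h1
  rw [Complex.sub_re] at h2
  have h3 := (abs_le.1 h2).1
  have hterm : ∀ v ∈ S, ((analyticOrderNatAt f v : ℂ) / (0 - v)).re =
      (analyticOrderNatAt f v : ℝ) * (-v.re / Complex.normSq v) := by
    intro v _
    rw [zero_sub, div_eq_mul_inv, ← Complex.ofReal_natCast, Complex.re_ofReal_mul, Complex.inv_re,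
      Complex.neg_re, Complex.normSq_neg]
  have hneg : ∀ v ∈ S, v.re < 0 := by
    intro v hv
    obtain ⟨a, b⟩ := (hS v).1 hv
    exact hz v (closedBall_subset_closedBall (by norm_num) a) b
  have hnn : ∀ v ∈ S, 0 ≤ ((analyticOrderNatAt f v : ℂ) / (0 - v)).re := by
    intro v hv
    rw [hterm v hv]
    have := hneg v hv
    have h4 := Complex.normSq_nonneg v
    have h5 : 0 ≤ -v.re / Complex.normSq v := div_nonneg (by linarith) h4
    positivity
  have hre : (∑ v ∈ S, (analyticOrderNatAt f v : ℂ) / (0 - v)).re =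
      ∑ v ∈ S, ((analyticOrderNatAt f v : ℂ) / (0 - v)).re := Complex.re_sum _ _
  rw [hre] at h3
  constructor
  · have := Finset.sum_nonneg hnn
    linarith
  · intro x hx hx2 hfx
    have hv : (-(x : ℂ)) ∈ S := by
      rw [hS]
      refine ⟨?_, hfx⟩
      rw [mem_closedBall_zero_iff, norm_neg, Complex.norm_real, Real.norm_eq_abs, abs_of_pos hx]
      exact hx2
    have h6 := Finset.single_le_sum hnn hv
    rw [hterm _ hv] at h6
    have h7 : (1 : ℝ) ≤ (analyticOrderNatAt f (-(x : ℂ)) : ℝ) := by exact_mod_cast hm _ hv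
    have h8 : -(-(x : ℂ)).re / Complex.normSq (-(x : ℂ)) = 1 / x := by
      rw [Complex.normSq_neg, Complex.normSq_ofReal, Complex.neg_re, Complex.ofReal_re]
      field_simp
    rw [h8] at h6
    have h9 : 0 < 1 / x := by positivity
    have h10 : 1 / x ≤ (analyticOrderNatAt f (-(x : ℂ)) : ℝ) * (1 / x) := le_mul_of_one_le_left h9.le h7
    linarith

/-- the bound for the logarithmic derivative at `1 + δ + i γ` -/
theorem disc (h : BZ Z u κ) : ∃ C C1 : ℝ, 0 < C ∧ 3 ≤ C1 ∧ (∀ δ : ℝ, 0 < δ → δ ≤ 1 →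
      -(deriv Z ((1 + δ : ℝ) : ℂ) / Z ((1 + δ : ℝ) : ℂ)).re ≤ 1 / δ + C1) ∧
    ∀ γ δ r M : ℝ, 2 ≤ |γ| → 0 < r → r ≤ 1 / 4 → 0 < δ → δ ≤ r → 0 ≤ M →
    (∀ s : ℂ, 1 - r ≤ s.re → s.re ≤ 2 → |s.im - γ| ≤ 1 → ‖Z s‖ ≤ Real.exp M) →
    -(deriv Z (((1 + δ : ℝ) : ℂ) + γ * I) / Z (((1 + δ : ℝ) : ℂ) + γ * I)).re ≤ C * (M + Real.log (C1 / δ)) / r ∧
    ∀ β : ℝ, β ≤ 1 → 1 + δ - β ≤ r / 2 → Z (β + γ * I) = 0 →
    -(deriv Z (((1 + δ : ℝ) : ℂ) + γ * I) / Z (((1 + δ : ℝ) : ℂ) + γ * I)).re ≤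
      C * (M + Real.log (C1 / δ)) / r - 1 / (1 + δ - β) := by
  obtain ⟨C, hC, hlan⟩ := lan
  obtain ⟨C1, hC1, hp⟩ := pole h
  refine ⟨C, C1, hC, hC1, fun δ h0 h1 => (hp δ h0 h1).2, ?_⟩
  intro γ δ r M hγ hr hr4 hδ hδr hM hb
  set s0 : ℂ := ((1 + δ : ℝ) : ℂ) + γ * I with hs0
  have hs0re : s0.re = 1 + δ := by rw [hs0]; simp
  have hs0im : s0.im = γ := by rw [hs0]; simp
  have hrC : (r : ℂ) ≠ 0 := by exact_mod_cast hr.ne'
  set f : ℂ → ℂ := fun z => Z (s0 + r * z) with hf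
  have hre : ∀ z : ℂ, (s0 + r * z).re = 1 + δ + r * z.re := by
    intro z
    rw [Complex.add_re, hs0re, Complex.re_ofReal_mul]
  have him : ∀ z : ℂ, (s0 + r * z).im = γ + r * z.im := by
    intro z
    rw [Complex.add_im, hs0im, Complex.im_ofReal_mul]
  have hz1 : ∀ z ∈ closedBall (0 : ℂ) 1, |z.re| ≤ 1 ∧ |z.im| ≤ 1 := by
    intro z hz
    rw [mem_closedBall_zero_iff] at hz
    exact ⟨(Complex.abs_re_le_norm z).trans hz, (Complex.abs_im_le_norm z).trans hz⟩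
  have hdom : ∀ z ∈ closedBall (0 : ℂ) 1, 1 - r ≤ (s0 + r * z).re ∧ (s0 + r * z).re ≤ 2 ∧
      |(s0 + r * z).im - γ| ≤ 1 ∧ (s0 + r * z) ≠ 1 := by
    intro z hz
    obtain ⟨a, b⟩ := hz1 z hz
    rw [abs_le] at a b
    have e1 := hre z
    have e2 := him z
    refine ⟨?_, ?_, ?_, ?_⟩
    · rw [e1]; nlinarith
    · rw [e1]; nlinarith
    · rw [e2, abs_le]; constructor <;> nlinarith
    · intro h1
      have h2 : (s0 + r * z).im = 0 := by rw [h1]; simp
      rw [e2] at h2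
      have h3 : γ = -(r * z.im) := by linarith
      have h4 : |γ| ≤ 1 := by
        rw [h3, abs_neg, abs_le]; constructor <;> nlinarith
      linarith
  have hC1δ : 1 < C1 / δ := by
    rw [lt_div_iff₀ hδ]
    linarith
  have hΛ : 0 < M + Real.log (C1 / δ) := by
    have := Real.log_pos hC1δ
    linarith
  have hδ1 : δ ≤ 1 := by linarith
  have hZ0 : Z s0 ≠ 0 := ne_zero h (by rw [hs0re]; linarith)
  have hf0 : f 0 = Z s0 := by rw [hf]; simp
  have hfa : AnalyticOnNhd ℂ f (closedBall 0 1) := by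
    intro z hz
    obtain ⟨a, b, c, d⟩ := hdom z hz
    have h1 : AnalyticAt ℂ Z (s0 + r * z) :=
      h.diff.analyticAt (isOpen_dom.mem_nhds ⟨by linarith, d⟩)
    have h2 : AnalyticAt ℂ (fun z : ℂ => s0 + r * z) z := by fun_prop
    exact h1.comp_of_eq h2 rfl
  have hfb : ∀ z ∈ closedBall (0 : ℂ) 1, ‖f z‖ ≤ Real.exp (M + Real.log (C1 / δ)) * ‖f 0‖ := by
    intro z hz
    obtain ⟨a, b, c, d⟩ := hdom z hz
    rw [hf0, Real.exp_add, Real.exp_log (by linarith)]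
    have h1 : ‖f z‖ ≤ Real.exp M := hb _ a b c
    have h2 := one_le h (s := s0) (by rw [hs0re]; linarith)
    rw [hs0re] at h2
    have h3 := (hp δ hδ hδ1).1
    have h4 : 1 ≤ C1 / δ * ‖Z s0‖ := by
      refine h2.trans ?_
      rw [mul_comm]
      exact mul_le_mul_of_nonneg_right h3 (norm_nonneg _)
    calc ‖f z‖ ≤ Real.exp M * 1 := by linarith
      _ ≤ Real.exp M * (C1 / δ * ‖Z s0‖) := mul_le_mul_of_nonneg_left h4 (Real.exp_pos _).le
      _ = _ := by ring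
  have hfz : ∀ z ∈ closedBall (0 : ℂ) 1, f z = 0 → z.re < 0 := by
    intro z hz h0
    by_contra hcon
    rw [not_lt] at hcon
    refine ne_zero h (s := s0 + r * z) ?_ h0
    rw [hre z]
    nlinarith
  have hder : deriv f 0 = r * deriv Z s0 := by
    have hd : DifferentiableAt ℂ Z (s0 + r * 0) := by
      have := hdom 0 (by simp)
      refine diffAt h ?_ this.2.2.2
      have := this.1
      linarith
    have h1 : HasDerivAt (fun z : ℂ => s0 + r * z) (r : ℂ) 0 := by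
      simpa using ((hasDerivAt_id (0 : ℂ)).const_mul (r : ℂ)).const_add s0
    have h2 := hd.hasDerivAt.comp (0 : ℂ) h1
    have h3 : deriv f 0 = deriv Z (s0 + r * 0) * r := h2.deriv
    rw [h3, mul_zero, add_zero, mul_comm]
  obtain ⟨k1, k2⟩ := hlan f _ hΛ hfa (by rw [hf0]; exact hZ0) hfb hfz
  have hq : (deriv f 0 / f 0).re = r * (deriv Z s0 / Z s0).re := by
    rw [hder, hf0, mul_div_assoc, Complex.re_ofReal_mul]
  rw [hq] at k1 k2
  constructor
  · rw [le_div_iff₀ hr]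
    linarith
  · intro β hβ hβr hβz
    have hx0 : 0 < (1 + δ - β) / r := div_pos (by linarith) hr
    have hx2 : (1 + δ - β) / r ≤ 1 / 2 := by rw [div_le_iff₀ hr]; linarith
    have hfx : f (-(((1 + δ - β) / r : ℝ) : ℂ)) = 0 := by
      rw [hf]
      have e : s0 + r * (-(((1 + δ - β) / r : ℝ) : ℂ)) = β + γ * I := by
        rw [hs0]
        push_cast
        field_simp
        ring
      simp only [e, hβz]
    have k3 := k2 _ hx0 hx2 hfx
    have e3 : 1 / ((1 + δ - β) / r) = r * (1 / (1 + δ - β)) := by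
      have : (1 + δ - β) ≠ 0 := by linarith
      field_simp
    rw [e3] at k3
    have k4 : -(deriv Z s0 / Z s0).re + 1 / (1 + δ - β) ≤ C * (M + Real.log (C1 / δ)) / r := by
      rw [le_div_iff₀ hr]
      linarith
    linarith

lemma exists_c0 {C C1 : ℝ} (hC : 0 < C) (hC1 : 3 ≤ C1) : ∃ c0 : ℝ, 0 < c0 ∧ c0 ≤ 1 / 8 ∧
    3 * C1 * c0 + 5 * C * c0 * (2 + Real.log C1 + Real.log (1 / c0)) ≤ 1 / 2 := by
  have hl : 0 < Real.log C1 := Real.log_pos (by linarith)
  set K : ℝ := 3 * C1 + 5 * C * (2 + Real.log C1) + 10 * C + 4 with hK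
  have hK4 : 4 ≤ K := by
    have : 0 ≤ 3 * C1 + 5 * C * (2 + Real.log C1) + 10 * C := by positivity
    linarith
  have hK0 : 0 < K := by linarith
  set e : ℝ := 1 / (2 * K) with he
  have he0 : 0 < e := by positivity
  have he8 : e ≤ 1 / 8 := by
    rw [he]
    exact one_div_le_one_div_of_le (by norm_num) (by linarith)
  have heK : K * e = 1 / 2 := by rw [he]; field_simp
  refine ⟨e ^ 2, by positivity, by nlinarith, ?_⟩
  have h1 : Real.log (1 / e ^ 2) ≤ 2 / e := by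
    have h2 : (1 / e ^ 2 : ℝ) = (1 / e) ^ 2 := by ring
    rw [h2, Real.log_pow]
    have h3 := Real.log_le_sub_one_of_pos (show 0 < 1 / e by positivity)
    push_cast
    have h4 : 2 / e = 2 * (1 / e) := by ring
    rw [h4]
    linarith
  have h5 : e ^ 2 * Real.log (1 / e ^ 2) ≤ 2 * e := by
    calc e ^ 2 * Real.log (1 / e ^ 2) ≤ e ^ 2 * (2 / e) := mul_le_mul_of_nonneg_left h1 (by positivity)
      _ = 2 * e := by field_simp
  have h6 : e ^ 2 ≤ e := by nlinarith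
  have h7 : 3 * C1 * e ^ 2 ≤ 3 * C1 * e := mul_le_mul_of_nonneg_left h6 (by positivity)
  have h8 : 5 * C * (2 + Real.log C1) * e ^ 2 ≤ 5 * C * (2 + Real.log C1) * e :=
    mul_le_mul_of_nonneg_left h6 (by positivity)
  have h9 : 5 * C * (e ^ 2 * Real.log (1 / e ^ 2)) ≤ 5 * C * (2 * e) := mul_le_mul_of_nonneg_left h5 (by positivity)
  have h10 : (3 * C1 + 5 * C * (2 + Real.log C1) + 10 * C) * e ≤ 1 / 2 := by
    have : (3 * C1 + 5 * C * (2 + Real.log C1) + 10 * C) * e ≤ K * e :=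
      mul_le_mul_of_nonneg_right (by rw [hK]; linarith) he0.le
    linarith
  nlinarith

/-- the local form of Landau's theorem -/
theorem local_free (h : BZ Z u κ) : ∃ c : ℝ, 0 < c ∧ ∀ γ r M : ℝ, 2 ≤ |γ| → 0 < r → r ≤ 1 / 4 → 0 ≤ M →
    (∀ s : ℂ, 1 - r ≤ s.re → s.re ≤ 2 → (|s.im - γ| ≤ 1 ∨ |s.im - 2 * γ| ≤ 1) → ‖Z s‖ ≤ Real.exp M) →
    ∀ β : ℝ, Z (β + γ * I) = 0 → c * r ≤ (1 - β) * (M + Real.log (1 / r) + 1) := by
  obtain ⟨C, C1, hC, hC1, hp, hd⟩ := disc h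
  obtain ⟨c0, hc0, hc8, hc⟩ := exists_c0 hC hC1
  refine ⟨c0 / 7, by positivity, fun γ r M hγ hr hr4 hM hb β hβ => ?_⟩
  by_contra hcon
  rw [not_le] at hcon
  have hlr : 0 ≤ Real.log (1 / r) := Real.log_nonneg (by rw [le_div_iff₀ hr]; linarith)
  set D : ℝ := M + Real.log (1 / r) + 1 with hD
  have hD1 : 1 ≤ D := by linarith
  have hD0 : 0 < D := by linarith
  set δ : ℝ := c0 * r / D with hδ
  have hδ0 : 0 < δ := by positivity
  have hδr : δ ≤ r / 8 := by
    rw [hδ, div_le_iff₀ hD0]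
    nlinarith
  have hδD : δ * D = c0 * r := by rw [hδ]; field_simp
  have hβδ : 1 - β < δ / 7 := by
    have h1 : (1 - β) * D < δ / 7 * D := by
      calc (1 - β) * D < c0 / 7 * r := hcon
        _ = (c0 * r) / 7 := by ring
        _ = δ / 7 * D := by rw [← hδD]; ring
    exact lt_of_mul_lt_mul_right h1 hD0.le
  have hβ1 : β ≤ 1 := by
    by_contra h1
    rw [not_le] at h1
    exact ne_zero h (s := β + γ * I) (by simpa using h1) hβ
  have h2γ : 2 ≤ |2 * γ| := by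
    rw [abs_mul, abs_two]
    linarith
  obtain ⟨-, k1⟩ := hd γ δ r M hγ hr hr4 hδ0 (by linarith) hM fun s a b c => hb s a b (Or.inl c)
  obtain ⟨k2, -⟩ := hd (2 * γ) δ r M h2γ hr hr4 hδ0 (by linarith) hM fun s a b c => hb s a b (Or.inr c)
  have k3 := k1 β hβ1 (by linarith) hβ
  have k4 := hp δ hδ0 (by linarith)
  have k5 := three_four_one h γ (σ := 1 + δ) (by linarith)
  have e2 : (((2 * γ : ℝ)) : ℂ) = 2 * γ := by push_cast; ring
  rw [e2] at k2
  set Λ : ℝ := M + Real.log (C1 / δ) with hΛ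
  -- the main inequality
  have k6 : 4 / (1 + δ - β) ≤ 3 / δ + 3 * C1 + 5 * C * Λ / r := by
    have e3 : 4 / (1 + δ - β) = 4 * (1 / (1 + δ - β)) := by ring
    have e4 : 3 / δ = 3 * (1 / δ) := by ring
    have e5 : 5 * C * Λ / r = 5 * (C * Λ / r) := by ring
    rw [e3, e4, e5]
    linarith
  -- the size of `Λ`
  have hlC : 0 < Real.log C1 := Real.log_pos (by linarith)
  have hlc : 0 < Real.log (1 / c0) := Real.log_pos (by rw [lt_div_iff₀ hc0]; linarith)
  have hΛD : Λ ≤ D * (2 + Real.log C1 + Real.log (1 / c0)) := by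
    have e6 : C1 / δ = C1 * (1 / c0) * (1 / r) * D := by
      rw [hδ]; field_simp
    have e7 : Real.log (C1 / δ) = Real.log C1 + Real.log (1 / c0) + Real.log (1 / r) + Real.log D := by
      rw [e6, Real.log_mul (by positivity) hD0.ne', Real.log_mul (by positivity) (by positivity),
        Real.log_mul (by positivity) (by positivity)]
    have h8 := Real.log_le_sub_one_of_pos hD0
    rw [hΛ, e7]
    nlinarith
  have k7 : (3 * C1 + 5 * C * Λ / r) * δ ≤ 1 / 2 := by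
    have h1 : 5 * C * Λ / r * δ ≤ 5 * C * c0 * (2 + Real.log C1 + Real.log (1 / c0)) := by
      have h2 : 5 * C * Λ / r * δ = 5 * C * (δ / r) * Λ := by ring
      have h3 : δ / r = c0 / D := by rw [hδ]; field_simp
      rw [h2, h3]
      calc 5 * C * (c0 / D) * Λ ≤ 5 * C * (c0 / D) * (D * (2 + Real.log C1 + Real.log (1 / c0))) :=
            mul_le_mul_of_nonneg_left hΛD (by positivity)
        _ = _ := by field_simp
    have h4 : 3 * C1 * δ ≤ 3 * C1 * c0 := by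
      refine mul_le_mul_of_nonneg_left ?_ (by linarith)
      rw [hδ, div_le_iff₀ hD0]
      nlinarith
    nlinarith
  have hx : 0 < 1 + δ - β := by linarith
  rw [div_le_iff₀ hx] at k6
  have k8 : 4 * δ ≤ (3 + (3 * C1 + 5 * C * Λ / r) * δ) * (1 + δ - β) := by
    have e8 : (3 + (3 * C1 + 5 * C * Λ / r) * δ) * (1 + δ - β) =
        δ * ((3 / δ + 3 * C1 + 5 * C * Λ / r) * (1 + δ - β)) := by
      have h1 : δ * (3 / δ) = 3 := by field_simp
      calc (3 + (3 * C1 + 5 * C * Λ / r) * δ) * (1 + δ - β) =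
          (δ * (3 / δ) + (3 * C1 + 5 * C * Λ / r) * δ) * (1 + δ - β) := by rw [h1]
        _ = _ := by ring
    rw [e8]
    have h2 := mul_le_mul_of_nonneg_left k6 hδ0.le
    linarith
  have k9 : (3 + (3 * C1 + 5 * C * Λ / r) * δ) * (1 + δ - β) ≤ (3 + 1 / 2) * (1 + δ - β) :=
    mul_le_mul_of_nonneg_right (by linarith) hx.le
  linarith

end Pool.Agent.H71.Lan
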