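import Pool.Agent.H71.Lan.AbsA

/-!
# Landau's theorem for Beurling systems : an arbitrary nonnegative cosine polynomial

`poly_le` : if `∑ b_k cos (k y) ≥ 0` for all `y`, then `∑ b_k re (Z' / Z) (σ + i k t) ≤ 0` for `σ > 1`.
`ineq_poly` : the resulting inequality for a zero `β + i γ`, if `‖Z s‖ ≤ exp (w max 0 (1 - re s) + E)` for `re s ≥ 1 - r` near the
ordinates `k γ`, `1 ≤ k ≤ N`.
-/

set_option autoImplicit false

open Complex MeasureTheory Set Filter Topology Metric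

namespace Pool.Agent.H71.Lan

variable {Z : ℂ → ℂ} {u : ℕ → ℝ} {κ : ℝ}

lemma hasSum_log_norm (h : BZ Z u κ) {s : ℂ} (hs : 1 < s.re) :
    HasSum (fun j => Real.log ‖(1 - Complex.exp (-(s * u j)))⁻¹‖) (Real.log ‖Z s‖) := by
  have h1 := hasProd_norm h hs
  have h2 : ‖Z s‖ ≠ 0 := norm_ne_zero_iff.2 (ne_zero h hs)
  have h3 := ((Real.continuousAt_log h2).tendsto).comp h1
  have h4 : (Real.log ∘ fun S : Finset ℕ => ∏ j ∈ S, ‖(1 - Complex.exp (-(s * u j)))⁻¹‖) =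
      fun S : Finset ℕ => ∑ j ∈ S, Real.log ‖(1 - Complex.exp (-(s * u j)))⁻¹‖ := by
    funext S
    simp only [Function.comp_apply]
    rw [Real.log_prod]
    intro j _
    exact (norm_pos_iff.2 (inv_ne_zero (one_sub_ne (norm_e_lt (h.pos j) hs)))).ne'
  rw [h4] at h3
  exact h3

/-- one Euler factor, as a power series -/
lemma hasSum_factor {v t σ : ℝ} (hv : 0 < v) (hσ : 1 < σ) (b : ℕ → ℝ) (N : ℕ) :
    HasSum (fun n : ℕ => Real.exp (-(σ * v)) ^ n / n * ∑ k ∈ Finset.range N, b k * Real.cos (k * (n * (t * v))))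
      (∑ k ∈ Finset.range N, b k * Real.log ‖(1 - Complex.exp (-(((σ : ℂ) + (k * t : ℝ) * I) * v)))⁻¹‖) := by
  have h1 : ∀ k ∈ Finset.range N, HasSum (fun n : ℕ => b k *
      ((Complex.exp (-(((σ : ℂ) + (k * t : ℝ) * I) * v))) ^ n / n).re)
      (b k * Real.log ‖(1 - Complex.exp (-(((σ : ℂ) + (k * t : ℝ) * I) * v)))⁻¹‖) := by
    intro k _
    exact (hasSum_neg_log (norm_e_lt hv (by simpa using hσ))).mul_left (b k)
  have h2 := hasSum_sum h1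
  refine h2.congr_fun ?_
  intro n
  rw [Finset.mul_sum]
  refine Finset.sum_congr rfl fun k _ => ?_
  rw [re_lem σ (k * t) v n]
  have e : (n : ℝ) * (k * t * v) = k * (n * (t * v)) := by ring
  rw [e]
  ring

/-- the combination is a nonincreasing function of `σ` -/
lemma poly_anti (h : BZ Z u κ) {b : ℕ → ℝ} {N : ℕ}
    (hb : ∀ y : ℝ, 0 ≤ ∑ k ∈ Finset.range N, b k * Real.cos (k * y)) (t : ℝ) {σ1 σ2 : ℝ} (h1 : 1 < σ1)
    (h12 : σ1 ≤ σ2) :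
    ∑ k ∈ Finset.range N, b k * Real.log ‖Z ((σ2 : ℂ) + (k * t : ℝ) * I)‖ ≤
      ∑ k ∈ Finset.range N, b k * Real.log ‖Z ((σ1 : ℂ) + (k * t : ℝ) * I)‖ := by
  have key : ∀ σ : ℝ, 1 < σ → HasSum (fun j => ∑ k ∈ Finset.range N, b k *
      Real.log ‖(1 - Complex.exp (-(((σ : ℂ) + (k * t : ℝ) * I) * u j)))⁻¹‖)
      (∑ k ∈ Finset.range N, b k * Real.log ‖Z ((σ : ℂ) + (k * t : ℝ) * I)‖) := by
    intro σ hσ
    exact hasSum_sum fun k _ => (hasSum_log_norm h (s := (σ : ℂ) + (k * t : ℝ) * I) (by simpa using hσ)).mul_left _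
  refine hasSum_le (fun j => ?_) (key σ2 (h1.trans_le h12)) (key σ1 h1)
  refine hasSum_le (fun n => ?_) (hasSum_factor (h.pos j) (h1.trans_le h12) b N) (hasSum_factor (h.pos j) h1 b N)
  refine mul_le_mul_of_nonneg_right ?_ (hb _)
  refine div_le_div_of_nonneg_right ?_ (Nat.cast_nonneg n)
  refine pow_le_pow_left₀ (Real.exp_pos _).le (Real.exp_le_exp.2 ?_) n
  have := h.pos j
  nlinarith

/-- the inequality of de la Vallee Poussin with an arbitrary nonnegative cosine polynomial -/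
theorem poly_le (h : BZ Z u κ) {b : ℕ → ℝ} {N : ℕ}
    (hb : ∀ y : ℝ, 0 ≤ ∑ k ∈ Finset.range N, b k * Real.cos (k * y)) (t : ℝ) {σ : ℝ} (hσ : 1 < σ) :
    ∑ k ∈ Finset.range N, b k *
      (deriv Z ((σ : ℂ) + (k * t : ℝ) * I) / Z ((σ : ℂ) + (k * t : ℝ) * I)).re ≤ 0 := by
  have D : HasDerivAt (fun x : ℝ => ∑ k ∈ Finset.range N, b k * Real.log ‖Z ((x : ℂ) + (k * t : ℝ) * I)‖)
      (∑ k ∈ Finset.range N, b k *
        (deriv Z ((σ : ℂ) + (k * t : ℝ) * I) / Z ((σ : ℂ) + (k * t : ℝ) * I)).re) σ := by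
    refine HasDerivAt.fun_sum fun k _ => ?_
    have hre : 1 < ((σ : ℂ) + (k * t : ℝ) * I).re := by simpa using hσ
    exact (hasDerivAt_log_norm (diffAt h (mem_dom hre).1 (mem_dom hre).2) (ne_zero h hre)).const_mul _
  have hs := (hasDerivAt_iff_tendsto_slope.1 D).mono_left
    (nhdsWithin_mono σ (s := Ioi σ) (fun y hy => ne_of_gt hy))
  refine le_of_tendsto hs ?_
  filter_upwards [self_mem_nhdsWithin] with y hy
  have hy' : σ < y := hy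
  rw [slope_def_field]
  refine div_nonpos_of_nonpos_of_nonneg ?_ (by linarith)
  have := poly_anti h hb t hσ hy'.le
  linarith

/-- the basic inequality for a nonnegative cosine polynomial with nonnegative coefficients -/
theorem ineq_poly (h : BZ Z u κ) {b : ℕ → ℝ} {N : ℕ} (hb0 : ∀ k, 0 ≤ b k)
    (hb : ∀ y : ℝ, 0 ≤ ∑ k ∈ Finset.range (N + 2), b k * Real.cos (k * y)) : ∃ C1 : ℝ, 3 ≤ C1 ∧
    ∀ γ δ r w E β : ℝ, 2 ≤ |γ| → 0 < r → r ≤ 1 / 4 → 0 < δ → δ ≤ r → 0 ≤ w → 0 ≤ E →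
    (∀ s : ℂ, 1 - r ≤ s.re → s.re ≤ 2 → (∃ k : ℕ, 1 ≤ k ∧ k < N + 2 ∧ |s.im - k * γ| ≤ 1) →
      ‖Z s‖ ≤ Real.exp (w * max 0 (1 - s.re) + E)) →
    1 + δ - β < r → Z (β + γ * I) = 0 →
    β ≤ 1 ∧ b 1 / (1 + δ - β) ≤ b 0 / δ + b 0 * C1 +
      (∑ k ∈ Finset.range (N + 1), b (k + 1)) * (w / 2 + (E + Real.log (C1 / δ)) / r) +
      b 1 * ((1 + δ - β) / r ^ 2) := by
  obtain ⟨C1, hC1, hp, hd⟩ := disc_abs h
  refine ⟨C1, hC1, ?_⟩
  intro γ δ r w E β hγ hr hr4 hδ hδr hw hE hbd hβr hβ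
  have hβ1 : β ≤ 1 := by
    by_contra h1
    rw [not_le] at h1
    exact ne_zero h (s := β + γ * I) (by simpa using h1) hβ
  refine ⟨hβ1, ?_⟩
  set X : ℝ := w / 2 + (E + Real.log (C1 / δ)) / r with hX
  have hk : ∀ k : ℕ, 1 ≤ k → k < N + 2 →
      -(deriv Z (((1 + δ : ℝ) : ℂ) + (k * γ : ℝ) * I) / Z (((1 + δ : ℝ) : ℂ) + (k * γ : ℝ) * I)).re ≤ X := by
    intro k k1 k2
    have h2 : 2 ≤ |(k : ℝ) * γ| := by
      have h3 : (1 : ℝ) ≤ k := by exact_mod_cast k1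
      rw [abs_mul, Nat.abs_cast]
      nlinarith
    exact (hd (k * γ) δ r w E h2 hr hr4 hδ hδr hw hE fun s a b' c => hbd s a b' ⟨k, k1, k2, c⟩).1
  have k1 : -(deriv Z (((1 + δ : ℝ) : ℂ) + γ * I) / Z (((1 + δ : ℝ) : ℂ) + γ * I)).re ≤
      X - 1 / (1 + δ - β) + (1 + δ - β) / r ^ 2 :=
    (hd γ δ r w E hγ hr hr4 hδ hδr hw hE fun s a b' c => hbd s a b' ⟨1, le_rfl, by omega, by simpa using c⟩).2
      β hβ1 hβr hβ
  have k0 := hp δ hδ (by linarith)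
  have key := poly_le h hb γ (σ := 1 + δ) (by linarith)
  rw [Finset.sum_range_succ', Finset.sum_range_succ'] at key
  simp only [Nat.cast_zero, zero_mul, Complex.ofReal_zero, add_zero, zero_add, Nat.cast_one, one_mul] at key
  have hs : ∑ k ∈ Finset.range N, b (k + 1 + 1) *
      -(deriv Z (((1 + δ : ℝ) : ℂ) + (((k + 1 + 1 : ℕ) : ℝ) * γ : ℝ) * I) /
        Z (((1 + δ : ℝ) : ℂ) + (((k + 1 + 1 : ℕ) : ℝ) * γ : ℝ) * I)).re ≤
      ∑ k ∈ Finset.range N, b (k + 1 + 1) * X := by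
    refine Finset.sum_le_sum fun k hkN => mul_le_mul_of_nonneg_left (hk _ (by omega) ?_) (hb0 _)
    rw [Finset.mem_range] at hkN
    omega
  simp only [mul_neg, Finset.sum_neg_distrib] at hs
  rw [← Finset.sum_mul] at hs
  rw [Finset.sum_range_succ']
  simp only [zero_add]
  have m0 : b 0 * -(deriv Z ((1 + δ : ℝ) : ℂ) / Z ((1 + δ : ℝ) : ℂ)).re ≤ b 0 * (1 / δ + C1) :=
    mul_le_mul_of_nonneg_left k0 (hb0 0)
  have m1 := mul_le_mul_of_nonneg_left k1 (hb0 1)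
  have e1 : b 1 / (1 + δ - β) = b 1 * (1 / (1 + δ - β)) := by ring
  have e2 : b 0 / δ = b 0 * (1 / δ) := by ring
  rw [e1, e2]
  push_cast at key hs m0 m1 ⊢
  nlinarith

/-- the polynomial `8 (9/10 + cos y)^2 (3/10 + cos y)^2` -/
noncomputable def pb : ℕ → ℝ
  | 0 => 115032 / 10000
  | 1 => 19584 / 1000
  | 2 => 1192 / 100
  | 3 => 48 / 10
  | 4 => 1
  | _ => 0

lemma pb_nonneg (k : ℕ) : 0 ≤ pb k := by
  unfold pb
  split <;> norm_num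

lemma pb_poly (y : ℝ) : 0 ≤ ∑ k ∈ Finset.range (3 + 2), pb k * Real.cos (k * y) := by
  have e : ∑ k ∈ Finset.range (3 + 2), pb k * Real.cos (k * y) =
      8 * (9 / 10 + Real.cos y) ^ 2 * (3 / 10 + Real.cos y) ^ 2 := by
    simp only [Finset.sum_range_succ, Finset.sum_range_zero, pb]
    have e2 : Real.cos (2 * y) = 2 * Real.cos y ^ 2 - 1 := Real.cos_two_mul y
    have e3 : Real.cos (3 * y) = 4 * Real.cos y ^ 3 - 3 * Real.cos y := Real.cos_three_mul y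
    have e4 : Real.cos (4 * y) = 2 * (2 * Real.cos y ^ 2 - 1) ^ 2 - 1 := by
      have : (4 : ℝ) * y = 2 * (2 * y) := by ring
      rw [this, Real.cos_two_mul, e2]
    push_cast
    rw [zero_mul, Real.cos_zero, one_mul, e2, e3, e4]
    ring
  rw [e]
  positivity

/-- the basic inequality for the polynomial `pb` -/
theorem ineq_four (h : BZ Z u κ) : ∃ C1 : ℝ, 3 ≤ C1 ∧
    ∀ γ δ r w E β : ℝ, 2 ≤ |γ| → 0 < r → r ≤ 1 / 4 → 0 < δ → δ ≤ r → 0 ≤ w → 0 ≤ E →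
    (∀ s : ℂ, 1 - r ≤ s.re → s.re ≤ 2 → (∃ k : ℕ, 1 ≤ k ∧ k < 5 ∧ |s.im - k * γ| ≤ 1) →
      ‖Z s‖ ≤ Real.exp (w * max 0 (1 - s.re) + E)) →
    1 + δ - β < r → Z (β + γ * I) = 0 →
    β ≤ 1 ∧ 19584 / 1000 / (1 + δ - β) ≤ 115032 / 10000 / δ + 115032 / 10000 * C1 +
      37304 / 1000 * (w / 2 + (E + Real.log (C1 / δ)) / r) + 19584 / 1000 * ((1 + δ - β) / r ^ 2) := by
  obtain ⟨C1, hC1, hin⟩ := ineq_poly h (N := 3) pb_nonneg pb_poly
  refine ⟨C1, hC1, fun γ δ r w E β h1 h2 h3 h4 h5 h6 h7 h8 h9 h10 => ?_⟩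
  obtain ⟨a1, a2⟩ := hin γ δ r w E β h1 h2 h3 h4 h5 h6 h7 h8 h9 h10
  refine ⟨a1, ?_⟩
  have e : ∑ k ∈ Finset.range (3 + 1), pb (k + 1) = 37304 / 1000 := by
    simp only [Finset.sum_range_succ, Finset.sum_range_zero, pb]
    norm_num
  rw [e] at a2
  simpa only [pb] using a2

lemma im_range4 {γ : ℝ} (h4 : 4 ≤ |γ|) {y : ℝ} (h : ∃ k : ℕ, 1 ≤ k ∧ k < 5 ∧ |y - k * γ| ≤ 1) :
    3 ≤ |y| ∧ |y| ≤ 5 * |γ| := by
  obtain ⟨k, k1, k5, hk⟩ := h
  have h1 := abs_abs_sub_abs_le_abs_sub y (k * γ)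
  have h2 := abs_le.1 (h1.trans hk)
  rw [abs_mul, Nat.abs_cast] at h2
  have h3 : (1 : ℝ) ≤ k := by exact_mod_cast k1
  have h5 : (k : ℝ) ≤ 4 := by
    have : k ≤ 4 := by omega
    exact_mod_cast this
  constructor
  · nlinarith [h2.1]
  · nlinarith [h2.2]

end Pool.Agent.H71.Lan
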