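import Pool.Agent.H71.Lan.Grow

/-!
# The Vinogradov-Korobov-Richert region for every Beurling system with Richert's bound
-/

set_option autoImplicit false

open Complex MeasureTheory Set Filter Topology Metric

namespace Pool.Agent.H71.Lan

variable {Z : ℂ → ℂ} {u : ℕ → ℝ} {κ : ℝ}

theorem landau_richert (h : BZ Z u κ) {θ A B : ℝ} (hθ : θ < 1)
    (hg : ∀ s : ℂ, θ ≤ s.re → s.re ≤ 2 → 3 ≤ |s.im| →
      ‖Z s‖ ≤ A * |s.im| ^ (B * (max 0 (1 - s.re)) ^ (3 / 2 : ℝ)) * Real.log |s.im| ^ (2 / 3 : ℝ)) :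
    ∃ c : ℝ, 0 < c ∧ ∀ ρ : ℂ, Z ρ = 0 → 3 ≤ |ρ.im| →
      c ≤ (1 - ρ.re) * (Real.log |ρ.im| ^ (2 / 3 : ℝ) * Real.log (Real.log |ρ.im|) ^ (1 / 3 : ℝ)) := by
  obtain ⟨c, hc, hloc⟩ := local_free h
  obtain ⟨C3, hC3, hlow⟩ := low_bound h
  set r0 : ℝ := min (1 / 4) (1 - θ) with hr0
  have hr00 : 0 < r0 := lt_min (by norm_num) (by linarith)
  have hr04 : r0 ≤ 1 / 4 := min_le_left _ _
  have hr0θ : r0 ≤ 1 - θ := min_le_right _ _
  have hlr0 : 0 ≤ Real.log (1 / r0) := Real.log_nonneg (by rw [le_div_iff₀ hr00]; linarith)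
  have hA0 : 0 ≤ |A| := abs_nonneg A
  have hB0 : 0 ≤ |B| := abs_nonneg B
  set K : ℝ := 2 * |B| + 2 + 25 / 2 * (|A| + C3 + Real.log (1 / r0) + 29 / 2) with hK
  have hK0 : 0 < K := by positivity
  refine ⟨c * r0 / K, by positivity, fun ρ hρ hT => ?_⟩
  set T : ℝ := |ρ.im| with hTd
  obtain ⟨l1, l2, l3⟩ := loglog_facts hT
  set ℓ : ℝ := Real.log T with hℓ
  set L : ℝ := Real.log ℓ with hL
  have hL0 : 0 < L := by linarith
  have hℓ0 : 0 < ℓ := by linarith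
  have hLℓ : L ≤ ℓ := by
    have := Real.log_le_sub_one_of_pos hℓ0
    linarith
  set q : ℝ := L / ℓ with hq
  have hq0 : 0 < q := by positivity
  have hq1 : q ≤ 1 := by rw [hq, div_le_one hℓ0]; exact hLℓ
  set r : ℝ := r0 * q ^ (2 / 3 : ℝ) with hr
  have hqp : 0 < q ^ (2 / 3 : ℝ) := by positivity
  have hqp1 : q ^ (2 / 3 : ℝ) ≤ 1 := Real.rpow_le_one hq0.le hq1 (by norm_num)
  have hrpos : 0 < r := by positivity
  have hrr0 : r ≤ r0 := by rw [hr]; nlinarith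
  set M : ℝ := 2 * |B| * L + 1 + L + |A| + C3 with hM
  have hM0 : 0 ≤ M := by positivity
  have hr32 : r ^ (3 / 2 : ℝ) ≤ q := by
    have h1 : r ≤ q ^ (2 / 3 : ℝ) := by rw [hr]; nlinarith
    have h2 : r ^ (3 / 2 : ℝ) ≤ (q ^ (2 / 3 : ℝ)) ^ (3 / 2 : ℝ) := Real.rpow_le_rpow hrpos.le h1 (by norm_num)
    rw [← Real.rpow_mul hq0.le] at h2
    norm_num at h2
    exact h2
  have hb : ∀ s : ℂ, 1 - r ≤ s.re → s.re ≤ 2 → (|s.im - ρ.im| ≤ 1 ∨ |s.im - 2 * ρ.im| ≤ 1) →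
      ‖Z s‖ ≤ Real.exp M := by
    intro s s1 s2 s3
    obtain ⟨i1, i2⟩ := im_range hTd hT s3
    rcases le_or_gt 3 |s.im| with i3 | i3
    · obtain ⟨m1, m2, m3, m4⟩ := l3 _ i3 i2
      refine (hg s (by linarith) s2 i3).trans ?_
      set a : ℝ := max 0 (1 - s.re) with ha
      have ha0 : 0 ≤ a := le_max_left _ _
      have har : a ≤ r := max_le hrpos.le (by linarith)
      have ha32 : a ^ (3 / 2 : ℝ) ≤ q := (Real.rpow_le_rpow ha0 har (by norm_num)).trans hr32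
      have ha320 : 0 ≤ a ^ (3 / 2 : ℝ) := by positivity
      have q1 : |s.im| ^ (B * a ^ (3 / 2 : ℝ)) ≤ Real.exp (2 * |B| * L) := by
        rw [Real.rpow_def_of_pos (by linarith)]
        refine Real.exp_le_exp.2 ?_
        have h1 : Real.log |s.im| * (B * a ^ (3 / 2 : ℝ)) ≤ (2 * ℓ) * (|B| * q) := by
          refine (mul_le_mul_of_nonneg_left (?_ : B * a ^ (3 / 2 : ℝ) ≤ |B| * q) (by linarith)).trans
            (mul_le_mul_of_nonneg_right m2 (by positivity))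
          exact (mul_le_mul_of_nonneg_right (le_abs_self B) ha320).trans (mul_le_mul_of_nonneg_left ha32 hB0)
        refine h1.trans (le_of_eq ?_)
        rw [hq]
        field_simp
      have q2 : Real.log |s.im| ^ (2 / 3 : ℝ) ≤ Real.exp (1 + L) := by
        rw [Real.rpow_def_of_pos (by linarith)]
        refine Real.exp_le_exp.2 ?_
        linarith
      have q3 : A ≤ Real.exp |A| := by
        have h1 := Real.add_one_le_exp |A|
        have h2 := le_abs_self A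
        linarith
      have q4 : 0 ≤ |s.im| ^ (B * a ^ (3 / 2 : ℝ)) := by positivity
      have q5 : 0 ≤ Real.log |s.im| ^ (2 / 3 : ℝ) := Real.rpow_nonneg (by linarith) _
      calc A * |s.im| ^ (B * a ^ (3 / 2 : ℝ)) * Real.log |s.im| ^ (2 / 3 : ℝ) ≤
            Real.exp |A| * Real.exp (2 * |B| * L) * Real.exp (1 + L) := by
            refine mul_le_mul ?_ q2 q5 (by positivity)
            exact mul_le_mul q3 q1 q4 (Real.exp_pos _).le
        _ = Real.exp (|A| + 2 * |B| * L + (1 + L)) := by rw [← Real.exp_add, ← Real.exp_add]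
        _ ≤ Real.exp M := Real.exp_le_exp.2 (by rw [hM]; linarith)
    · refine (hlow s (by linarith) s2 i1 i3.le).trans (Real.exp_le_exp.2 ?_)
      have : 0 ≤ 2 * |B| * L + 1 + L + |A| := by positivity
      rw [hM]
      linarith
  have hρ' : Z ((ρ.re : ℂ) + ρ.im * I) = 0 := by rw [Complex.re_add_im]; exact hρ
  have k1 := hloc ρ.im r M (by rw [← hTd]; linarith) hrpos (by linarith) hM0 hb ρ.re hρ'
  have hβ : 0 ≤ 1 - ρ.re := by
    by_contra h1
    rw [not_le] at h1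
    exact ne_zero h (s := ρ) (by linarith) hρ
  have e1 : Real.log (1 / r) = Real.log (1 / r0) + 2 / 3 * (L + Real.log (1 / L)) := by
    have e2 : (1 / r : ℝ) = 1 / r0 * (q ^ (2 / 3 : ℝ))⁻¹ := by rw [hr]; field_simp
    rw [e2, Real.log_mul (by positivity) (by positivity), Real.log_inv, Real.log_rpow hq0, hq,
      Real.log_div hL0.ne' hℓ0.ne', one_div L, Real.log_inv]
    ring
  have e3 : Real.log (1 / L) ≤ 25 / 2 := by
    have h1 := Real.log_le_sub_one_of_pos (show 0 < 1 / L by positivity)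
    have h2 : 1 / L ≤ 25 / 2 := by rw [div_le_iff₀ hL0]; linarith
    linarith
  have k2 : M + Real.log (1 / r) + 1 ≤ K * L := by
    have h1 : (1 : ℝ) ≤ 25 / 2 * L := by linarith
    have h2 : (|A| + C3 + Real.log (1 / r0) + 29 / 2) * 1 ≤ (|A| + C3 + Real.log (1 / r0) + 29 / 2) * (25 / 2 * L) :=
      mul_le_mul_of_nonneg_left h1 (by positivity)
    have h3 : K * L = 2 * |B| * L + 2 * L + (|A| + C3 + Real.log (1 / r0) + 29 / 2) * (25 / 2 * L) := by
      rw [hK]; ring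
    rw [h3, e1, hM]
    linarith
  have k3 : c * r ≤ (1 - ρ.re) * (K * L) := k1.trans (mul_le_mul_of_nonneg_left k2 hβ)
  have e4 : L = q ^ (2 / 3 : ℝ) * (ℓ ^ (2 / 3 : ℝ) * L ^ (1 / 3 : ℝ)) := by
    rw [hq, Real.div_rpow hL0.le hℓ0.le]
    have h1 : ℓ ^ (2 / 3 : ℝ) ≠ 0 := by positivity
    have h2 : L ^ (2 / 3 : ℝ) * L ^ (1 / 3 : ℝ) = L := by
      rw [← Real.rpow_add hL0]
      norm_num
    calc L = L ^ (2 / 3 : ℝ) * L ^ (1 / 3 : ℝ) := h2.symm
      _ = _ := by field_simp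
  have k4 : (c * r0) * q ^ (2 / 3 : ℝ) ≤
      ((1 - ρ.re) * (ℓ ^ (2 / 3 : ℝ) * L ^ (1 / 3 : ℝ)) * K) * q ^ (2 / 3 : ℝ) := by
    calc (c * r0) * q ^ (2 / 3 : ℝ) = c * r := by rw [hr]; ring
      _ ≤ (1 - ρ.re) * (K * L) := k3
      _ = (1 - ρ.re) * (K * (q ^ (2 / 3 : ℝ) * (ℓ ^ (2 / 3 : ℝ) * L ^ (1 / 3 : ℝ)))) := by rw [← e4]
      _ = _ := by ring
  rw [div_le_iff₀ hK0]
  exact le_of_mul_le_mul_right k4 hqp

/-- the region `c / w` -/
theorem landau_w (h : BZ Z u κ) {w : ℝ → ℝ} (hm : MonotoneOn w (Ici 3)) {θ A : ℝ} (hθ : θ < 1)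
    (hg : ∀ s : ℂ, θ ≤ s.re → s.re ≤ 2 → 3 ≤ |s.im| →
      ‖Z s‖ ≤ Real.exp (w |s.im| * max 0 (1 - s.re) +
        A * Real.log |s.im| ^ max 0 (1 - s.re) * Real.log (2 + Real.log (Real.log |s.im|))))
    (hw : ∀ᶠ t : ℝ in atTop, Real.log (Real.log t) * Real.log (Real.log (Real.log t)) ≤ w t) :
    ∃ c T0 : ℝ, 0 < c ∧ ∀ ρ : ℂ, Z ρ = 0 → T0 ≤ |ρ.im| → c ≤ (1 - ρ.re) * w (3 * |ρ.im|) := by
  obtain ⟨c, hc, hz⟩ := landau_growth h hm hθ hg
  obtain ⟨T1, hT1⟩ := eventually_atTop.1 hw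
  have hlim : Tendsto (fun t : ℝ => Real.log (Real.log t)) atTop atTop :=
    Real.tendsto_log_atTop.comp Real.tendsto_log_atTop
  obtain ⟨T2, hT2⟩ := eventually_atTop.1 (hlim.eventually_ge_atTop 3)
  refine ⟨c / 5, max (max T1 T2) 3, by positivity, fun ρ hρ hT => ?_⟩
  set T : ℝ := |ρ.im| with hTd
  have t1 : T1 ≤ T := ((le_max_left _ _).trans (le_max_left _ _)).trans hT
  have t2 : T2 ≤ T := ((le_max_right _ _).trans (le_max_left _ _)).trans hT
  have t3 : 3 ≤ T := (le_max_right _ _).trans hT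
  have k1 := hz ρ hρ t3
  have k2 := hT1 T t1
  have k3 := hT2 T t2
  set L : ℝ := Real.log (Real.log T) with hL
  have hwm : w T ≤ w (3 * T) := hm t3 (by simp only [mem_Ici]; linarith) (by linarith)
  have hl3 : 1 ≤ Real.log L := by
    have h1 : Real.log 3 ≤ Real.log L := Real.log_le_log (by norm_num) k3
    have := Real.log_three_gt_d9
    linarith
  have h2L : Real.log (2 + L) ≤ 2 * Real.log L := by
    have h1 : Real.log (2 + L) ≤ Real.log (L ^ 2) := Real.log_le_log (by linarith) (by nlinarith)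
    rw [Real.log_pow] at h1
    push_cast at h1
    exact h1
  have h3 : 3 ≤ w (3 * T) := by nlinarith
  have h4 : max 0 (w (3 * T)) = w (3 * T) := max_eq_right (by linarith)
  rw [h4] at k1
  have h5 : (1 + L) * Real.log (2 + L) ≤ 4 * (L * Real.log L) := by
    calc (1 + L) * Real.log (2 + L) ≤ (2 * L) * (2 * Real.log L) :=
          mul_le_mul (by linarith) h2L (Real.log_nonneg (by linarith)) (by linarith)
      _ = _ := by ring
  have hβ : 0 ≤ 1 - ρ.re := by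
    by_contra h1
    rw [not_le] at h1
    exact ne_zero h (s := ρ) (by linarith) hρ
  have h6 : w (3 * T) + (1 + L) * Real.log (2 + L) ≤ 5 * w (3 * T) := by linarith
  have h7 := k1.trans (mul_le_mul_of_nonneg_left h6 hβ)
  linarith

end Pool.Agent.H71.Lan
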