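import Pool.Agent.H71.Lan.Rich

/-!
# Landau's theorem for Beurling systems : from the line `re s = 1` to the strip `1 ≤ re s ≤ 2`

Phragmen-Lindelof for `(s - 1) / (s + 1) Z s exp ((s - 1 - i t)^2)`.
-/

set_option autoImplicit false

open Complex MeasureTheory Set Filter Topology Metric

namespace Pool.Agent.H71.Lan

variable {Z : ℂ → ℂ} {u : ℕ → ℝ} {κ : ℝ}

/-- the size on the line `re s = 2` -/
lemma norm_two (h : BZ Z u κ) {s : ℂ} (hs : 1 < s.re) : ‖Z s‖ ≤ ‖Z (s.re : ℂ)‖ := by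
  have h1 := hasProd_norm h hs
  have h2 := hasProd_norm h (s := (s.re : ℂ)) (by simpa using hs)
  refine le_of_tendsto_of_tendsto' h1 h2 fun S => ?_
  refine Finset.prod_le_prod (fun j _ => norm_nonneg _) fun j _ => ?_
  have ha := norm_e_lt (h.pos j) hs
  have e1 : Complex.exp (-(((s.re : ℝ) : ℂ) * u j)) = ((Real.exp (-(s.re * u j)) : ℝ) : ℂ) := by
    push_cast
    ring_nf
  have e2 : ‖Complex.exp (-(s * u j))‖ = Real.exp (-(s.re * u j)) := norm_e _ _
  rw [norm_inv, norm_inv, e1]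
  set x := Real.exp (-(s.re * u j)) with hx
  have hx0 : 0 < x := Real.exp_pos _
  have hx1 : x < 1 := by rw [← e2]; exact ha
  have h5 : ‖1 - ((x : ℝ) : ℂ)‖ = 1 - x := by
    rw [← Complex.ofReal_one, ← Complex.ofReal_sub, Complex.norm_real, Real.norm_eq_abs,
      abs_of_pos (by linarith)]
  rw [h5]
  refine inv_anti₀ (by linarith) ?_
  have h6 := norm_sub_norm_le (1 : ℂ) (Complex.exp (-(s * u j)))
  rw [norm_one, e2] at h6
  exact h6

/-- the function to which Phragmen-Lindelof is applied -/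
noncomputable def PF (Z : ℂ → ℂ) (κ t0 : ℝ) (s : ℂ) : ℂ :=
  gg Z κ s / (s + 1) * Complex.exp ((s - 1 - t0 * I) ^ 2)

lemma norm_PF {t0 : ℝ} {s : ℂ} (h1 : s ≠ 1) :
    ‖PF Z κ t0 s‖ = ‖s - 1‖ * ‖Z s‖ / ‖s + 1‖ * Real.exp ((s.re - 1) ^ 2 - (s.im - t0) ^ 2) := by
  unfold PF
  rw [gg_of_ne h1, norm_mul, norm_div, norm_mul, Complex.norm_exp]
  congr 2
  have e : s - 1 - t0 * I = ((s.re - 1 : ℝ) : ℂ) + ((s.im - t0 : ℝ) : ℂ) * I := by
    apply Complex.ext <;> simp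
  rw [e, sq, Complex.mul_re]
  simp
  ring

lemma quot_le {s : ℂ} (hs : 0 ≤ s.re) : ‖s - 1‖ / ‖s + 1‖ ≤ 1 := by
  refine div_le_one_of_le₀ ?_ (norm_nonneg _)
  refine (sq_le_sq₀ (norm_nonneg _) (norm_nonneg _)).1 ?_
  rw [Complex.sq_norm, Complex.sq_norm, Complex.normSq_apply, Complex.normSq_apply]
  simp only [Complex.sub_re, Complex.add_re, Complex.one_re, Complex.sub_im, Complex.add_im, Complex.one_im,
    sub_zero, add_zero]
  nlinarith

theorem strip (h : BZ Z u κ) {A0 : ℝ} (hfin : ∀ s : ℂ, 1 ≤ s.re → s.re ≤ 2 → 3 ≤ |s.im| → ‖Z s‖ ≤ A0 * |s.im|) :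
    ∃ C : ℝ, 0 < C ∧ ∀ t0 M : ℝ, 6 ≤ |t0| → 1 ≤ M →
      (∀ t : ℝ, |t0| / 2 ≤ |t| → |t| ≤ 2 * |t0| → ‖Z (1 + t * I)‖ ≤ M) →
      ∀ σ : ℝ, 1 ≤ σ → σ ≤ 2 → ‖Z (σ + t0 * I)‖ ≤ C * M := by
  -- compactness for small ordinates
  have hK : IsCompact (Icc (1 : ℝ) 2 ×ℂ Icc (-3 : ℝ) 3) := isCompact_Icc.reProdIm isCompact_Icc
  have hsub : (Icc (1 : ℝ) 2 ×ℂ Icc (-3 : ℝ) 3) ⊆ {s : ℂ | 1 / 2 < s.re} := by
    rintro s ⟨h1, -⟩
    have := h1.1
    simp only [mem_ofPred_eq]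
    linarith
  have hcq : ContinuousOn (fun s : ℂ => gg Z κ s / (s + 1)) (Icc (1 : ℝ) 2 ×ℂ Icc (-3 : ℝ) 3) := by
    refine ((gg_diff h).continuousOn.mono hsub).div (by fun_prop) ?_
    rintro s ⟨h1, -⟩ h2
    have h3 := congrArg Complex.re h2
    simp at h3
    have := h1.1
    linarith
  obtain ⟨K0, hK0⟩ := hK.exists_bound_of_continuousOn hcq
  set B2 : ℝ := ‖Z ((2 : ℝ) : ℂ)‖ with hB2
  have hB20 : 0 ≤ B2 := norm_nonneg _
  have hA00 : 0 ≤ |A0| := abs_nonneg A0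
  have hK00 : 0 ≤ |K0| := abs_nonneg K0
  set C1 : ℝ := 1 + |K0| + 3 * |A0| + B2 with hC1
  refine ⟨6 * C1, by positivity, fun t0 M ht0 hM hb σ hσ1 hσ2 => ?_⟩
  have he := Real.exp_one_lt_d9
  have he0 : (0 : ℝ) < Real.exp 1 := Real.exp_pos 1
  -- the bound of the weight
  have hwt : ∀ s : ℂ, 1 ≤ s.re → s.re ≤ 2 →
      Real.exp ((s.re - 1) ^ 2 - (s.im - t0) ^ 2) ≤ Real.exp 1 * Real.exp (-(s.im - t0) ^ 2) := by
    intro s h1 h2
    rw [← Real.exp_add]
    refine Real.exp_le_exp.2 ?_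
    nlinarith
  have hwt1 : ∀ y : ℝ, Real.exp (-(y - t0) ^ 2) ≤ 1 := by
    intro y
    rw [Real.exp_le_one_iff]
    nlinarith [sq_nonneg (y - t0)]
  have hne1 : ∀ s : ℂ, 3 ≤ |s.im| → s ≠ 1 := by
    intro s h1 h2
    rw [h2] at h1
    simp at h1
    linarith
  have hsmall : ∀ s : ℂ, 1 ≤ s.re → s.re ≤ 2 → |s.im| ≤ 3 → ‖PF Z κ t0 s‖ ≤ 3 * |K0| := by
    intro s h1 h2 h3
    unfold PF
    rw [norm_mul]
    have h4 := hK0 s ⟨⟨h1, h2⟩, abs_le.1 h3⟩
    have h5 : ‖Complex.exp ((s - 1 - t0 * I) ^ 2)‖ ≤ 3 := by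
      rw [Complex.norm_exp]
      have e : s - 1 - t0 * I = ((s.re - 1 : ℝ) : ℂ) + ((s.im - t0 : ℝ) : ℂ) * I := by
        apply Complex.ext <;> simp
      have e2 : ((s - 1 - t0 * I) ^ 2).re = (s.re - 1) ^ 2 - (s.im - t0) ^ 2 := by
        rw [e, sq, Complex.mul_re]
        simp
        ring
      rw [e2]
      refine (hwt s h1 h2).trans ?_
      have := hwt1 s.im
      nlinarith
    have h6 : ‖gg Z κ s / (s + 1)‖ ≤ |K0| := h4.trans (le_abs_self K0)
    have h7 := mul_le_mul h6 h5 (norm_nonneg _) hK00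
    linarith
  have hbig : ∀ s : ℂ, 1 ≤ s.re → s.re ≤ 2 → 3 ≤ |s.im| →
      ‖PF Z κ t0 s‖ ≤ ‖Z s‖ * (3 * Real.exp (-(s.im - t0) ^ 2)) := by
    intro s h1 h2 h3
    rw [norm_PF (hne1 s h3)]
    have h4 := hwt s h1 h2
    have h5 := quot_le (s := s) (by linarith)
    have e1 : ‖s - 1‖ * ‖Z s‖ / ‖s + 1‖ = (‖s - 1‖ / ‖s + 1‖) * ‖Z s‖ := by ring
    rw [e1]
    have h6 : (‖s - 1‖ / ‖s + 1‖) * ‖Z s‖ ≤ 1 * ‖Z s‖ := mul_le_mul_of_nonneg_right h5 (norm_nonneg _)
    have h7 : Real.exp ((s.re - 1) ^ 2 - (s.im - t0) ^ 2) ≤ 3 * Real.exp (-(s.im - t0) ^ 2) := by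
      refine h4.trans (mul_le_mul_of_nonneg_right (by linarith) (Real.exp_pos _).le)
    calc (‖s - 1‖ / ‖s + 1‖) * ‖Z s‖ * Real.exp ((s.re - 1) ^ 2 - (s.im - t0) ^ 2) ≤
          (1 * ‖Z s‖) * (3 * Real.exp (-(s.im - t0) ^ 2)) :=
          mul_le_mul h6 h7 (Real.exp_pos _).le (by positivity)
      _ = _ := by ring
  have htop : 0 < |t0| := by linarith
  -- the line `re s = 1`
  have hline1 : ∀ s : ℂ, s.re = 1 → ‖PF Z κ t0 s‖ ≤ 3 * (C1 * M) := by
    intro s h1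
    have hC1M : C1 ≤ C1 * M := le_mul_of_one_le_right (by positivity) hM
    rcases le_or_gt |s.im| 3 with h3 | h3
    · have := hsmall s (by linarith) (by linarith) h3
      linarith
    · refine (hbig s (by linarith) (by linarith) h3.le).trans ?_
      rcases le_or_gt |s.im - t0| (|t0| / 2) with h4 | h4
      · have h5 : |t0| / 2 ≤ |s.im| := by
          have := abs_sub_abs_le_abs_sub t0 s.im
          rw [abs_sub_comm] at this
          linarith
        have h6 : |s.im| ≤ 2 * |t0| := by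
          have := abs_sub_abs_le_abs_sub s.im t0
          linarith
        have h7 := hb s.im h5 h6
        have e : (1 : ℂ) + s.im * I = s := by
          apply Complex.ext <;> simp [h1]
        rw [e] at h7
        have h8 := hwt1 s.im
        have h9 : ‖Z s‖ * (3 * Real.exp (-(s.im - t0) ^ 2)) ≤ M * (3 * 1) :=
          mul_le_mul h7 (by linarith) (by positivity) (by linarith)
        have h10 : M ≤ C1 * M := le_mul_of_one_le_left (by linarith) (by linarith)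
        linarith
      · have h5 := hfin s (by linarith) (by linarith) h3.le
        set d : ℝ := |s.im - t0| with hd
        have h6 : |s.im| ≤ 3 * d := by
          have := abs_sub_abs_le_abs_sub s.im t0
          linarith
        have h7 : ‖Z s‖ ≤ 3 * |A0| * d := by
          refine h5.trans ?_
          calc A0 * |s.im| ≤ |A0| * |s.im| := mul_le_mul_of_nonneg_right (le_abs_self A0) (abs_nonneg _)
            _ ≤ |A0| * (3 * d) := mul_le_mul_of_nonneg_left h6 hA00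
            _ = _ := by ring
        have h8 : d * Real.exp (-(s.im - t0) ^ 2) ≤ 1 := by
          have e : (s.im - t0) ^ 2 = d ^ 2 := by rw [hd, sq_abs]
          have h9 := Real.add_one_le_exp (d ^ 2)
          rw [Real.exp_neg, e, ← div_eq_mul_inv, div_le_one (Real.exp_pos _)]
          nlinarith [sq_nonneg (d - 1)]
        calc ‖Z s‖ * (3 * Real.exp (-(s.im - t0) ^ 2)) ≤ (3 * |A0| * d) * (3 * Real.exp (-(s.im - t0) ^ 2)) :=
              mul_le_mul_of_nonneg_right h7 (by positivity)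
          _ = 9 * |A0| * (d * Real.exp (-(s.im - t0) ^ 2)) := by ring
          _ ≤ 9 * |A0| * 1 := mul_le_mul_of_nonneg_left h8 (by positivity)
          _ ≤ 3 * (C1 * M) := by linarith
  -- the line `re s = 2`
  have hline2 : ∀ s : ℂ, s.re = 2 → ‖PF Z κ t0 s‖ ≤ 3 * (C1 * M) := by
    intro s h1
    have hC1M : C1 ≤ C1 * M := le_mul_of_one_le_right (by positivity) hM
    rcases le_or_gt |s.im| 3 with h3 | h3
    · have := hsmall s (by linarith) (by linarith) h3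
      linarith
    · refine (hbig s (by linarith) (by linarith) h3.le).trans ?_
      have h2 := norm_two h (s := s) (by linarith)
      rw [h1] at h2
      have h8 := hwt1 s.im
      have h9 : ‖Z s‖ * (3 * Real.exp (-(s.im - t0) ^ 2)) ≤ B2 * (3 * 1) :=
        mul_le_mul h2 (by linarith) (by positivity) hB20
      linarith
  -- Phragmen-Lindelof
  have hdiff : DifferentiableOn ℂ (PF Z κ t0) {s : ℂ | 1 / 2 < s.re} := by
    unfold PF
    refine DifferentiableOn.mul (DifferentiableOn.div (gg_diff h) (by fun_prop) ?_) (by fun_prop)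
    intro s hs h2
    have h3 := congrArg Complex.re h2
    simp at h3
    have : 1 / 2 < s.re := hs
    linarith
  have hdc : DiffContOnCl ℂ (PF Z κ t0) (Complex.re ⁻¹' Ioo 1 2) := by
    refine DifferentiableOn.diffContOnCl (hdiff.mono ?_)
    intro s hs
    have h1 : s ∈ Complex.re ⁻¹' (Icc 1 2) := by
      have h2 : closure (Complex.re ⁻¹' Ioo (1 : ℝ) 2) ⊆ Complex.re ⁻¹' (Icc 1 2) :=
        closure_minimal (preimage_mono Ioo_subset_Icc_self) (isClosed_Icc.preimage Complex.continuous_re)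
      exact h2 hs
    have h2 := h1.1
    simp only [mem_ofPred_eq]
    linarith
  have hgrow : ∃ c < Real.pi / (2 - 1), ∃ B, PF Z κ t0 =O[comap (_root_.abs ∘ Complex.im) atTop ⊓
      𝓟 (Complex.re ⁻¹' Ioo 1 2)] fun z ↦ Real.exp (B * Real.exp (c * |z.im|)) := by
    refine ⟨1, by have := Real.pi_gt_three; linarith, 1, ?_⟩
    refine Asymptotics.IsBigO.of_bound (3 * |A0|) ?_
    have h1 : ∀ᶠ z : ℂ in comap (_root_.abs ∘ Complex.im) atTop ⊓ 𝓟 (Complex.re ⁻¹' Ioo 1 2),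
        3 ≤ |z.im| :=
      (tendsto_comap.eventually (eventually_ge_atTop (3 : ℝ))).filter_mono inf_le_left
    have h2 : ∀ᶠ z : ℂ in comap (_root_.abs ∘ Complex.im) atTop ⊓ 𝓟 (Complex.re ⁻¹' Ioo 1 2),
        z ∈ Complex.re ⁻¹' Ioo 1 2 := (eventually_principal.2 fun z hz => hz).filter_mono inf_le_right
    filter_upwards [h1, h2] with z z1 z2
    have z3 : 1 < z.re := z2.1
    have z4 : z.re < 2 := z2.2
    refine (hbig z z3.le z4.le z1).trans ?_
    have h5 := hfin z z3.le z4.le z1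
    have h6 := hwt1 z.im
    rw [Real.norm_eq_abs, abs_of_pos (Real.exp_pos _), one_mul, one_mul]
    have h7 : |z.im| ≤ Real.exp (Real.exp |z.im|) := by
      have a := Real.add_one_le_exp |z.im|
      have b := Real.add_one_le_exp (Real.exp |z.im|)
      linarith
    have h8 : ‖Z z‖ ≤ |A0| * Real.exp (Real.exp |z.im|) := by
      refine h5.trans ?_
      calc A0 * |z.im| ≤ |A0| * |z.im| := mul_le_mul_of_nonneg_right (le_abs_self A0) (abs_nonneg _)
        _ ≤ _ := mul_le_mul_of_nonneg_left h7 hA00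
    calc ‖Z z‖ * (3 * Real.exp (-(z.im - t0) ^ 2)) ≤ (|A0| * Real.exp (Real.exp |z.im|)) * (3 * 1) :=
          mul_le_mul h8 (by linarith) (by positivity) (by positivity)
      _ = _ := by ring
  have hPL := PhragmenLindelof.vertical_strip hdc hgrow hline1 hline2 (z := (σ : ℂ) + t0 * I)
    (by simpa using hσ1) (by simpa using hσ2)
  have hne : ((σ : ℂ) + t0 * I) ≠ 1 := hne1 _ (by simp; linarith)
  rw [norm_PF hne] at hPL
  have e1 : ((σ : ℂ) + t0 * I).re = σ := by simp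
  have e2 : ((σ : ℂ) + t0 * I).im = t0 := by simp
  rw [e1, e2, sub_self] at hPL
  have h9 : 1 ≤ Real.exp ((σ - 1) ^ 2 - 0 ^ 2) := by
    rw [Real.one_le_exp_iff]
    nlinarith [sq_nonneg (σ - 1)]
  have h10 : 1 / 2 ≤ ‖((σ : ℂ) + t0 * I) - 1‖ / ‖((σ : ℂ) + t0 * I) + 1‖ := by
    have a : ‖((σ : ℂ) + t0 * I) + 1‖ ≤ 3 + |t0| := by
      have e : ((σ : ℂ) + t0 * I) + 1 = ((σ + 1 : ℝ) : ℂ) + t0 * I := by push_cast; ring
      rw [e]
      refine (norm_add_le _ _).trans ?_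
      rw [norm_mul, Complex.norm_I, Complex.norm_real, Complex.norm_real, Real.norm_eq_abs, Real.norm_eq_abs,
        abs_of_pos (by linarith)]
      linarith
    have b : |t0| ≤ ‖((σ : ℂ) + t0 * I) - 1‖ := by
      have := Complex.abs_im_le_norm (((σ : ℂ) + t0 * I) - 1)
      simpa using this
    have c : 0 < ‖((σ : ℂ) + t0 * I) + 1‖ := by
      have := Complex.abs_im_le_norm (((σ : ℂ) + t0 * I) + 1)
      simp only [Complex.add_im, Complex.ofReal_im, Complex.mul_im, Complex.ofReal_re, Complex.I_im, mul_one,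
        Complex.I_re, mul_zero, add_zero, Complex.one_im, zero_add] at this
      linarith
    rw [le_div_iff₀ c]
    linarith
  have h11 : (1 / 2) * ‖Z ((σ : ℂ) + t0 * I)‖ ≤ 3 * (C1 * M) := by
    refine le_trans ?_ hPL
    have e3 : ‖(σ : ℂ) + t0 * I - 1‖ * ‖Z ((σ : ℂ) + t0 * I)‖ / ‖(σ : ℂ) + t0 * I + 1‖ =
        (‖(σ : ℂ) + t0 * I - 1‖ / ‖(σ : ℂ) + t0 * I + 1‖) * ‖Z ((σ : ℂ) + t0 * I)‖ := by ring
    rw [e3]
    have h12 := mul_le_mul_of_nonneg_right h10 (norm_nonneg (Z ((σ : ℂ) + t0 * I)))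
    refine h12.trans (le_mul_of_one_le_right ?_ h9)
    positivity
  linarith

end Pool.Agent.H71.Lan
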